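import Mathlib

set_option autoImplicit false

/-!
# LT-6: the divisor bound
-/

open Finset

namespace Pool.Agent.Helper69.LT

theorem tau_le (n z : ℕ) (hn : n ≠ 0) (hz : 2 ≤ z) : (n.divisors.card : ℝ) ≤
    Real.exp (z * Real.log (1 + Nat.log 2 n) + Real.log 2 * (Real.log n / Real.log z)) := by
  classical
  have hzR : (2 : ℝ) ≤ z := by exact_mod_cast hz
  have hlogz : 0 < Real.log z := Real.log_pos (by linarith)
  have hnR : (1 : ℝ) ≤ n := by exact_mod_cast Nat.one_le_iff_ne_zero.2 hn
  rw [Nat.card_divisors hn]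
  rw [← Finset.prod_filter_mul_prod_filter_not n.primeFactors (fun q => q ≤ z), Real.exp_add]
  push_cast
  apply mul_le_mul
  · have h1 : ∀ q ∈ n.primeFactors.filter (fun q => q ≤ z),
        ((n.factorization q : ℝ) + 1) ≤ 1 + Nat.log 2 n := by
      intro q hq
      rw [Finset.mem_filter] at hq
      have hqp := Nat.prime_of_mem_primeFactors hq.1
      have h2 : 2 ^ n.factorization q ≤ n := by
        calc 2 ^ n.factorization q ≤ q ^ n.factorization q := Nat.pow_le_pow_left hqp.two_le _
          _ ≤ n := Nat.le_of_dvd (Nat.pos_of_ne_zero hn) (Nat.ordProj_dvd n q)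
      have h3 : n.factorization q ≤ Nat.log 2 n := (Nat.le_log_iff_pow_le (by norm_num) hn).2 h2
      have h4 : (n.factorization q : ℝ) ≤ Nat.log 2 n := by exact_mod_cast h3
      linarith
    have hcard : (n.primeFactors.filter (fun q => q ≤ z)).card ≤ z := by
      have h2 : n.primeFactors.filter (fun q => q ≤ z) ⊆ Icc 1 z := by
        intro q hq
        rw [Finset.mem_filter] at hq
        exact Finset.mem_Icc.2 ⟨(Nat.prime_of_mem_primeFactors hq.1).one_le, hq.2⟩
      have h3 := Finset.card_le_card h2
      rwa [Nat.card_Icc, Nat.add_sub_cancel] at h3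
    have hbase : (1 : ℝ) ≤ 1 + Nat.log 2 n := by
      have : (0 : ℝ) ≤ Nat.log 2 n := Nat.cast_nonneg _
      linarith
    calc ∏ q ∈ n.primeFactors.filter (fun q => q ≤ z), ((n.factorization q : ℝ) + 1)
        ≤ ∏ q ∈ n.primeFactors.filter (fun q => q ≤ z), (1 + (Nat.log 2 n : ℝ)) :=
          Finset.prod_le_prod (fun _ _ => by positivity) h1
      _ = (1 + (Nat.log 2 n : ℝ)) ^ (n.primeFactors.filter (fun q => q ≤ z)).card := by
          rw [Finset.prod_const]
      _ ≤ (1 + (Nat.log 2 n : ℝ)) ^ z := pow_le_pow_right₀ hbase hcard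
      _ = Real.exp (z * Real.log (1 + Nat.log 2 n)) := by
          rw [← Real.log_pow, Real.exp_log (by positivity)]
  · set S := n.primeFactors.filter (fun q => ¬ q ≤ z) with hS
    set E := ∑ q ∈ S, n.factorization q with hE
    have h1 : ∀ q ∈ S, ((n.factorization q : ℝ) + 1) ≤ (2 : ℝ) ^ n.factorization q := by
      intro q _
      have : n.factorization q + 1 ≤ 2 ^ n.factorization q := Nat.lt_two_pow_self
      exact_mod_cast this
    have h2 : (z : ℝ) ^ E ≤ n := by
      have h3 : z ^ E ≤ ∏ q ∈ S, q ^ n.factorization q := by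
        rw [hE, ← Finset.prod_pow_eq_pow_sum]
        apply Finset.prod_le_prod'
        intro q hq
        rw [hS, Finset.mem_filter] at hq
        exact Nat.pow_le_pow_left (by omega) _
      have h4 : ∏ q ∈ S, q ^ n.factorization q ∣ n := by
        conv_rhs => rw [← Nat.prod_factorization_pow_eq_self hn]
        rw [Finsupp.prod, Nat.support_factorization]
        exact Finset.prod_dvd_prod_of_subset _ _ _ (Finset.filter_subset _ _)
      exact_mod_cast h3.trans (Nat.le_of_dvd (Nat.pos_of_ne_zero hn) h4)
    have h5 : (E : ℝ) * Real.log z ≤ Real.log n := by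
      rw [← Real.log_pow]
      exact Real.log_le_log (by positivity) h2
    have h6 : (E : ℝ) ≤ Real.log n / Real.log z := by
      rw [le_div_iff₀ hlogz]
      exact h5
    calc ∏ q ∈ S, ((n.factorization q : ℝ) + 1) ≤ ∏ q ∈ S, (2 : ℝ) ^ n.factorization q :=
          Finset.prod_le_prod (fun _ _ => by positivity) h1
      _ = (2 : ℝ) ^ E := by rw [hE, Finset.prod_pow_eq_pow_sum]
      _ = Real.exp (Real.log 2 * E) := by
          rw [mul_comm, ← Real.log_pow, Real.exp_log (by positivity)]
      _ ≤ Real.exp (Real.log 2 * (Real.log n / Real.log z)) := by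
          apply Real.exp_le_exp.2
          apply mul_le_mul_of_nonneg_left h6 (Real.log_nonneg (by norm_num))
  · exact Finset.prod_nonneg fun _ _ => by positivity
  · exact (Real.exp_pos _).le

end Pool.Agent.Helper69.LT
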