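import Pool.Agent.Helper69.LT.Rankin
import Pool.Agent.Helper69.LT.Tau


set_option autoImplicit false

/-!
# LT-9: the asymptotic estimates
-/

open Finset
open scoped Nat

namespace Pool.Agent.Helper69.LT

open Pool.Agent.TN

/-- `log N log log log N / log log N` -/
noncomputable def EX (N : ℕ) : ℝ :=
  Real.log N * Real.log (Real.log (Real.log N)) / Real.log (Real.log N)

lemma tl1 : Filter.Tendsto (fun N : ℕ => Real.log (N : ℝ)) Filter.atTop Filter.atTop :=
  Real.tendsto_log_atTop.comp tendsto_natCast_atTop_atTop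

lemma tl2 : Filter.Tendsto (fun N : ℕ => Real.log (Real.log (N : ℝ))) Filter.atTop Filter.atTop :=
  Real.tendsto_log_atTop.comp tl1

lemma tl3 : Filter.Tendsto (fun N : ℕ => Real.log (Real.log (Real.log (N : ℝ)))) Filter.atTop
    Filter.atTop := Real.tendsto_log_atTop.comp tl2

lemma log_le_mul' {c : ℝ} (hc : 0 < c) : ∀ᶠ x : ℝ in Filter.atTop, Real.log x ≤ c * x := by
  have h := Real.isLittleO_log_id_atTop.bound hc
  filter_upwards [h, Filter.eventually_ge_atTop 1] with x hx h1
  have h2 : ‖Real.log x‖ = Real.log x := by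
    rw [Real.norm_eq_abs, abs_of_nonneg (Real.log_nonneg h1)]
  have h3 : ‖(id x : ℝ)‖ = x := by
    rw [id, Real.norm_eq_abs, abs_of_nonneg (by linarith)]
  rw [h2, h3] at hx
  exact hx

lemma EX_le {η : ℝ} (hη : 0 < η) : ∀ᶠ N : ℕ in Filter.atTop, EX N ≤ η * Real.log N := by
  filter_upwards [tl2.eventually (log_le_mul' hη), tl2.eventually_ge_atTop 1,
    tl1.eventually_ge_atTop 1] with N h1 h2 h3
  unfold EX
  rw [div_le_iff₀ (by linarith)]
  nlinarith

lemma div_le_EX (C : ℝ) : ∀ᶠ N : ℕ in Filter.atTop,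
    C * (Real.log N / Real.log (Real.log N)) ≤ EX N := by
  filter_upwards [tl3.eventually_ge_atTop C, tl2.eventually_ge_atTop 1,
    tl1.eventually_ge_atTop 1] with N h1 h2 h3
  unfold EX
  have h4 : 0 < Real.log N / Real.log (Real.log N) := by
    apply div_pos <;> linarith
  calc C * (Real.log N / Real.log (Real.log N))
      ≤ Real.log (Real.log (Real.log N)) * (Real.log N / Real.log (Real.log N)) :=
        mul_le_mul_of_nonneg_right h1 h4.le
    _ = _ := by ring

lemma l2_le_sqrt {c : ℝ} (hc : 0 < c) : ∀ᶠ N : ℕ in Filter.atTop,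
    Real.log (Real.log N) ≤ c * Real.sqrt (Real.log N) := by
  have t : Filter.Tendsto (fun N : ℕ => Real.sqrt (Real.log (N : ℝ))) Filter.atTop Filter.atTop :=
    Real.tendsto_sqrt_atTop.comp tl1
  filter_upwards [t.eventually (log_le_mul' (c := c / 2) (by positivity)),
    tl1.eventually_ge_atTop 1] with N h1 h2
  rw [Real.log_sqrt (by linarith)] at h1
  linarith

lemma sqrt_le_EX (C : ℝ) : ∀ᶠ N : ℕ in Filter.atTop, C * Real.sqrt (Real.log N) ≤ EX N := by
  filter_upwards [l2_le_sqrt (c := 1 / (|C| + 1)) (by positivity), div_le_EX 1,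
    tl2.eventually_ge_atTop 1, tl1.eventually_ge_atTop 1] with N h1 h2 h3 h4
  have h5 : 0 ≤ Real.log (N : ℝ) := by linarith
  have h6 : Real.sqrt (Real.log N) * Real.sqrt (Real.log N) = Real.log N :=
    Real.mul_self_sqrt h5
  have h7 : 0 ≤ Real.sqrt (Real.log N) := Real.sqrt_nonneg _
  refine le_trans ?_ h2
  rw [one_mul, le_div_iff₀ (by linarith)]
  have h8 : C ≤ |C| + 1 := by have := le_abs_self C; linarith
  have h9 : 0 < |C| + 1 := by positivity
  calc C * Real.sqrt (Real.log N) * Real.log (Real.log N)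
      ≤ (|C| + 1) * Real.sqrt (Real.log N) * Real.log (Real.log N) := by
        apply mul_le_mul_of_nonneg_right _ (by linarith)
        exact mul_le_mul_of_nonneg_right h8 h7
    _ ≤ (|C| + 1) * Real.sqrt (Real.log N) * (1 / (|C| + 1) * Real.sqrt (Real.log N)) := by
        apply mul_le_mul_of_nonneg_left h1 (by positivity)
    _ = Real.sqrt (Real.log N) * Real.sqrt (Real.log N) := by field_simp
    _ = Real.log N := h6

lemma polylog (k : ℕ) (c : ℝ) {η : ℝ} (hη : 0 < η) : ∀ᶠ N : ℕ in Filter.atTop,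
    c * (1 + Real.log N) ^ k ≤ Real.exp (η * EX N) := by
  filter_upwards [l2_le_sqrt (c := 1) one_pos, sqrt_le_EX (((k : ℝ) + 1) / η),
    tl1.eventually_ge_atTop 1, tl1.eventually_ge_atTop (|c| * 2 ^ k)] with N h1 h2 h3 h4
  have h0 : 0 < Real.log (N : ℝ) := by linarith
  have h5 : ((k : ℝ) + 1) * Real.log (Real.log N) ≤ η * EX N := by
    have h6 : ((k : ℝ) + 1) * Real.sqrt (Real.log N) ≤ η * EX N := by
      calc ((k : ℝ) + 1) * Real.sqrt (Real.log N) =
            η * (((k : ℝ) + 1) / η * Real.sqrt (Real.log N)) := by field_simp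
        _ ≤ η * EX N := mul_le_mul_of_nonneg_left h2 hη.le
    have h7 : ((k : ℝ) + 1) * Real.log (Real.log N) ≤ ((k : ℝ) + 1) * Real.sqrt (Real.log N) := by
      apply mul_le_mul_of_nonneg_left _ (by positivity)
      linarith
    linarith
  calc c * (1 + Real.log N) ^ k ≤ |c| * (2 * Real.log N) ^ k := by
        apply mul_le_mul (le_abs_self c) _ (by positivity) (abs_nonneg c)
        apply pow_le_pow_left₀ (by positivity)
        linarith
    _ = (|c| * 2 ^ k) * Real.log N ^ k := by rw [mul_pow]; ring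
    _ ≤ Real.log N * Real.log N ^ k := mul_le_mul_of_nonneg_right h4 (by positivity)
    _ = Real.log N ^ (k + 1) := by rw [pow_succ, mul_comm]
    _ = Real.exp (((k : ℝ) + 1) * Real.log (Real.log N)) := by
        have h8 : Real.exp (Real.log (Real.log N)) = Real.log N := Real.exp_log h0
        rw [mul_comm, Real.exp_mul, h8]
        rw [← Real.rpow_natCast]
        push_cast
        rfl
    _ ≤ Real.exp (η * EX N) := Real.exp_le_exp.2 h5

lemma natlog_le {n : ℕ} {X : ℝ} (hn : 1 ≤ n) (h : (n : ℝ) ≤ X) :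
    (Nat.log 2 n : ℝ) ≤ 2 * Real.log X := by
  have hnR : (1 : ℝ) ≤ n := by exact_mod_cast hn
  have h6 : ((Nat.log 2 n : ℕ) : ℝ) ≤ Real.logb 2 n := by
    have := Real.natLog_le_logb n 2
    exact_mod_cast this
  have h7 : Real.logb 2 n = Real.log n / Real.log 2 := rfl
  have h8 : Real.log n ≤ Real.log X := Real.log_le_log (by linarith) h
  have h9 : 0 ≤ Real.log n := Real.log_nonneg hnR
  have h10 : Real.log n / Real.log 2 ≤ 2 * Real.log n := by
    rw [div_le_iff₀ (Real.log_pos (by norm_num))]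
    have := Real.log_two_gt_d9
    nlinarith
  linarith

/-- the divisor function -/
theorem tauE {η : ℝ} (hη : 0 < η) : ∀ᶠ N : ℕ in Filter.atTop, ∀ m : ℕ, 1 ≤ m → m ≤ N ^ 2 →
    (m.divisors.card : ℝ) ≤ Real.exp (η * EX N) := by
  have t : Filter.Tendsto (fun N : ℕ => Real.log (Real.log (N : ℝ))) Filter.atTop Filter.atTop := tl2
  filter_upwards [l2_le_sqrt (c := 1 / 2) (by norm_num), div_le_EX (20 / η),
    tl2.eventually (log_le_mul' (c := 1 / 8) (by norm_num)),
    tl2.eventually_ge_atTop 3, tl1.eventually_ge_atTop 10,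
    Filter.eventually_ge_atTop 1] with N h1 h2 h3 h4 h5 hN m hm1 hm2
  obtain ⟨L, hL⟩ : ∃ L, L = Real.log (N : ℝ) := ⟨_, rfl⟩
  obtain ⟨l, hl⟩ : ∃ l, l = Real.log L := ⟨_, rfl⟩
  rw [← hL] at h1 h2 h3 h4 h5
  rw [← hl] at h1 h2 h3 h4
  have hl0 : 0 < l := by linarith
  have hL0 : 0 < L := by linarith
  have hN1 : (1 : ℝ) ≤ N := by exact_mod_cast hN
  -- the parameter
  set z := ⌈L / l ^ 2⌉₊ with hz
  have hLl : 4 ≤ L / l ^ 2 := by
    rw [le_div_iff₀ (by positivity)]
    have h6 : Real.sqrt L * Real.sqrt L = L := Real.mul_self_sqrt hL0.le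
    have h7 : 0 ≤ Real.sqrt L := Real.sqrt_nonneg _
    nlinarith
  have hz1 : L / l ^ 2 ≤ z := Nat.le_ceil _
  have hz2 : (z : ℝ) ≤ 2 * (L / l ^ 2) := by
    have := Nat.ceil_lt_add_one (by positivity : 0 ≤ L / l ^ 2)
    rw [← hz] at this
    linarith
  have hz3 : 2 ≤ z := by
    have : (2 : ℝ) ≤ z := by linarith
    exact_mod_cast this
  have h6 := tau_le m z (by omega) hz3
  refine h6.trans (Real.exp_le_exp.2 ?_)
  have hm2R : (m : ℝ) ≤ (N : ℝ) ^ 2 := by exact_mod_cast hm2
  have hm1R : (1 : ℝ) ≤ m := by exact_mod_cast hm1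
  have hlogm : Real.log m ≤ 2 * L := by
    have := Real.log_le_log (by linarith) hm2R
    rw [Real.log_pow] at this
    rw [hL]
    exact_mod_cast this
  have hlogm0 : 0 ≤ Real.log m := Real.log_nonneg hm1R
  have h7 : (Nat.log 2 m : ℝ) ≤ 4 * L := by
    have := natlog_le hm1 (le_refl (m : ℝ))
    linarith
  have h8 : Real.log (1 + Nat.log 2 m) ≤ 2 * l := by
    have h9 : (1 : ℝ) + Nat.log 2 m ≤ L ^ 2 := by nlinarith
    have h10 := Real.log_le_log (by positivity) h9
    rw [Real.log_pow, ← hl] at h10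
    exact_mod_cast h10
  have h9 : (z : ℝ) * Real.log (1 + Nat.log 2 m) ≤ 4 * (L / l) := by
    have h10 : 0 ≤ Real.log (1 + (Nat.log 2 m : ℝ)) :=
      Real.log_nonneg (by have : (0 : ℝ) ≤ Nat.log 2 m := Nat.cast_nonneg _; linarith)
    calc (z : ℝ) * Real.log (1 + Nat.log 2 m) ≤ (2 * (L / l ^ 2)) * (2 * l) :=
          mul_le_mul hz2 h8 h10 (by positivity)
      _ = 4 * (L / l) := by field_simp; ring
  have h10 : l / 2 ≤ Real.log z := by
    have h11 : Real.log (L / l ^ 2) ≤ Real.log z := Real.log_le_log (by positivity) hz1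
    rw [Real.log_div (by positivity) (by positivity), Real.log_pow, ← hl] at h11
    push_cast at h11
    linarith
  have h11 : Real.log 2 * (Real.log m / Real.log z) ≤ 4 * (L / l) := by
    have h12 : Real.log m / Real.log z ≤ 4 * (L / l) := by
      rw [div_le_iff₀ (by linarith)]
      calc Real.log m ≤ 2 * L := hlogm
        _ = 4 * (L / l) * (l / 2) := by field_simp; ring
        _ ≤ 4 * (L / l) * Real.log z := mul_le_mul_of_nonneg_left h10 (by positivity)
    have h13 : Real.log 2 ≤ 1 := by have := Real.log_two_lt_d9; linarith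
    have h14 : 0 ≤ Real.log m / Real.log z := div_nonneg hlogm0 (by linarith)
    have h15 : 0 ≤ Real.log 2 := Real.log_nonneg (by norm_num)
    nlinarith
  have h12 : 20 * (L / l) ≤ η * EX N := by
    calc 20 * (L / l) = η * (20 / η * (L / l)) := by field_simp
      _ ≤ η * EX N := mul_le_mul_of_nonneg_left h2 hη.le
  have h13 : 0 < L / l := by positivity
  linarith

end Pool.Agent.Helper69.LT
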