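import Mathlib
import Pool.Agent.Helper6.ER.Defs
import Pool.Agent.Helper31.ER.Cond

set_option autoImplicit false

/-!
# LT-1: counting solutions of `a m ≡ -1 (mod b)` by primitive characters
-/

open Finset
open scoped Nat

namespace Pool.Agent.Helper69.LT

open Pool.Agent.Helper6.ER

/-- the sum of the primitive characters modulo `f` at the integer `x` -/
noncomputable def cs (f : ℕ) (x : ℤ) : ℂ := ∑ ψ ∈ prim f, ψ (x : ZMod f)

lemma sum_cond (b f : ℕ) (hb : 1 ≤ b) (hf : f ∣ b) (x : ℤ) (hx : IsCoprime x (b : ℤ)) :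
    ∑ χ ∈ (Finset.univ : Finset (DirichletCharacter ℂ b)).filter (fun χ => χ.conductor = f),
      χ (x : ZMod b) = cs f x := by
  classical
  have : NeZero b := ⟨by omega⟩
  unfold cs
  symm
  refine Finset.sum_bij (fun ψ _ => DirichletCharacter.changeLevel hf ψ) ?_ ?_ ?_ ?_
  · intro ψ hψ
    rw [Finset.mem_filter]
    refine ⟨Finset.mem_univ _, ?_⟩
    rw [DirichletCharacter.conductor_changeLevel]
    exact mem_prim.1 hψ
  · intro ψ _ ψ' _ h
    exact DirichletCharacter.changeLevel_injective hf h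
  · intro χ hχ
    rw [Finset.mem_filter] at hχ
    obtain ⟨-, h⟩ := hχ
    subst h
    exact ⟨χ.primitiveCharacter, mem_prim.2 (DirichletCharacter.primitiveCharacter_isPrimitive χ),
      DirichletCharacter.changeLevel_primitiveCharacter χ⟩
  · intro ψ _
    exact (DirichletCharacter.changeLevel_eq_cast_of_dvd' ψ hf hx).symm

lemma sum_cs (b : ℕ) (hb : 1 ≤ b) (x : ℤ) (hx : IsCoprime x (b : ℤ)) :
    ∑ f ∈ b.divisors, cs f x = if (b : ℤ) ∣ x - 1 then (φ b : ℂ) else 0 := by
  classical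
  have : NeZero b := ⟨by omega⟩
  have h1 : ∑ f ∈ b.divisors, cs f x = ∑ χ : DirichletCharacter ℂ b, χ (x : ZMod b) := by
    rw [← Finset.sum_fiberwise_of_maps_to (s := (Finset.univ : Finset (DirichletCharacter ℂ b)))
      (t := b.divisors) (g := fun χ => χ.conductor) (fun χ _ => Nat.mem_divisors.2
        ⟨DirichletCharacter.conductor_dvd_level χ, by omega⟩)]
    exact Finset.sum_congr rfl fun f hf => (sum_cond b f hb (Nat.dvd_of_mem_divisors hf) x hx).symm
  rw [h1, DirichletCharacter.sum_characters_eq]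
  have h2 : ((x : ZMod b) = 1) ↔ (b : ℤ) ∣ x - 1 := by
    rw [← ZMod.intCast_zmod_eq_zero_iff_dvd]
    push_cast
    rw [sub_eq_zero]
  simp only [h2]

lemma norm_cs_le (f : ℕ) (hf : 1 ≤ f) (x : ℤ) (hx : IsCoprime x (f : ℤ)) :
    ‖cs f x‖ ≤ ∑ r ∈ f.divisors, if (r : ℤ) ∣ x - 1 then (φ r : ℝ) else 0 := by
  classical
  set s : Set ℕ := {n | n ∣ f} with hs
  have hcop : ∀ r ∈ s, IsCoprime x (r : ℤ) := fun r hr =>
    IsCoprime.of_isCoprime_of_dvd_right hx (Int.natCast_dvd_natCast.2 hr)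
  have key := (ArithmeticFunction.sum_eq_iff_sum_mul_moebius_eq_on (R := ℂ)
    (f := fun n => cs n x) (g := fun n => if (n : ℤ) ∣ x - 1 then (φ n : ℂ) else 0) s
    (fun m n hmn hn => hmn.trans hn)).1 (fun n hn hns => sum_cs n hn x (hcop n hns)) f hf
    (dvd_refl f)
  rw [← key]
  refine (norm_sum_le _ _).trans ?_
  rw [Nat.sum_divisorsAntidiagonal' (f := fun i j => ‖((ArithmeticFunction.moebius i : ℤ) : ℂ) *
    (if (j : ℤ) ∣ x - 1 then (φ j : ℂ) else 0)‖)]
  refine Finset.sum_le_sum fun r _ => ?_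
  rw [norm_mul]
  have h2 : ‖((ArithmeticFunction.moebius (f / r) : ℤ) : ℂ)‖ ≤ 1 := by
    rw [Complex.norm_intCast]
    exact_mod_cast ArithmeticFunction.abs_moebius_le_one (n := f / r)
  split_ifs
  · rw [Complex.norm_natCast]
    have : (0 : ℝ) ≤ φ r := Nat.cast_nonneg _
    nlinarith
  · simp

end Pool.Agent.Helper69.LT
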