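import Pool.Agent.Helper69.LT.Small
import Pool.Agent.Helper9.TN.Basic

set_option autoImplicit false

/-!
# LT-5: Rankin's method for the numbers `c` with `φ(c) ∣ v`
-/

open Finset
open scoped Nat

namespace Pool.Agent.Helper69.LT

/-- The completely multiplicative function `m ^ (-s)`. -/
noncomputable def fs (s : ℝ) (hs : 0 < s) : ℕ →* ℝ where
  toFun m := (m : ℝ) ^ (-s)
  map_one' := by simp
  map_mul' a b := by
    rw [Nat.cast_mul, Real.mul_rpow (Nat.cast_nonneg _) (Nat.cast_nonneg _)]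

theorem fs_apply (s : ℝ) (hs : 0 < s) (m : ℕ) : fs s hs m = (m : ℝ) ^ (-s) := rfl

lemma sum_rpow_le (s : ℝ) (hs : 1 / 2 ≤ s) (P S : Finset ℕ)
    (hS : ∀ m ∈ S, ∀ p, p.Prime → p ∣ m → p ∈ P) :
    ∑ m ∈ S, (m : ℝ) ^ (-s) ≤ Real.exp (4 * ∑ p ∈ P.filter Nat.Prime, (p : ℝ) ^ (-s)) := by
  have hs0 : 0 < s := by linarith
  have h34 : (2 : ℝ) ^ (-s) ≤ 3 / 4 := by
    have h1 : (2 : ℝ) ^ (-s) ≤ (2 : ℝ) ^ (-(1 / 2 : ℝ)) :=
      Real.rpow_le_rpow_of_exponent_le (by norm_num) (by linarith)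
    have h2 : (2 : ℝ) ^ (-(1 / 2 : ℝ)) ≤ 3 / 4 := by
      rw [Real.rpow_neg (by norm_num), ← Real.sqrt_eq_rpow]
      have h3 : (4 / 3 : ℝ) ≤ Real.sqrt 2 := by
        apply Real.le_sqrt_of_sq_le
        norm_num
      rw [inv_le_comm₀ (by positivity) (by norm_num)]
      calc ((3 : ℝ) / 4)⁻¹ = 4 / 3 := by norm_num
        _ ≤ _ := h3
    linarith
  have hfp : ∀ p : ℕ, p.Prime → fs s hs0 p ≤ 3 / 4 := by
    intro p hp
    rw [fs_apply]
    refine le_trans ?_ h34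
    exact Real.rpow_le_rpow_of_nonpos (by norm_num) (by exact_mod_cast hp.two_le) (by linarith)
  have hnn : ∀ m : ℕ, 0 ≤ fs s hs0 m := fun m => by rw [fs_apply]; positivity
  have hlt : ∀ {p : ℕ}, p.Prime → ‖fs s hs0 p‖ < 1 := by
    intro p hp
    rw [Real.norm_of_nonneg (hnn p)]
    linarith [hfp p hp]
  have h := (EulerProduct.summable_and_hasSum_factoredNumbers_prod_filter_prime_geometric
    (f := fs s hs0) (fun {p} hp => hlt hp) P).2
  have h2 := sum_le_hasSum (S.subtype (· ∈ Nat.factoredNumbers P)) (fun i _ => by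
    change 0 ≤ fs s hs0 i
    exact hnn _) h
  have h3 : ∑ m ∈ S, fs s hs0 m ≤ ∏ p ∈ P with p.Prime, (1 - fs s hs0 p)⁻¹ := by
    refine le_trans (le_of_eq ?_) h2
    rw [Finset.sum_subtype_of_mem (p := (· ∈ Nat.factoredNumbers P)) (fun i => (fs s hs0 i : ℝ))]
    intro x hx
    rw [Nat.mem_factoredNumbers']
    exact hS x hx
  refine h3.trans ?_
  rw [Finset.mul_sum, Real.exp_sum]
  refine Finset.prod_le_prod (fun p hp => ?_) fun p hp => ?_
  · have h4 := hfp p (Finset.mem_filter.1 hp).2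
    exact inv_nonneg.2 (by linarith)
  · have h4 := hfp p (Finset.mem_filter.1 hp).2
    have h5 := hnn p
    rw [← fs_apply s hs0]
    have h6 : (1 - fs s hs0 p)⁻¹ ≤ 1 + 4 * fs s hs0 p := by
      rw [inv_le_iff_one_le_mul₀ (by linarith)]
      nlinarith
    have h7 := Real.add_one_le_exp (4 * fs s hs0 p)
    linarith

lemma sum_div_le (s : ℝ) (hs : 1 / 2 ≤ s) {v : ℕ} (hv : v ≠ 0) :
    ∑ d ∈ v.divisors, (d : ℝ) ^ (-s) ≤ Real.exp (4 * ∑ q ∈ v.primeFactors, (q : ℝ) ^ (-s)) := by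
  refine (sum_rpow_le s hs v.primeFactors v.divisors ?_).trans (le_of_eq ?_)
  · intro d hd p hp hpd
    exact Nat.mem_primeFactors.2 ⟨hp, hpd.trans (Nat.dvd_of_mem_divisors hd), hv⟩
  · congr 3
    apply Finset.filter_true_of_mem
    intro q hq
    exact Nat.prime_of_mem_primeFactors hq

/-- the exponent in the bound for the sum over primes -/
noncomputable def XX (y v : ℕ) (δ : ℝ) : ℝ :=
  (y : ℝ) ^ δ * Pool.Agent.TN.W y + Nat.log 2 v * (y : ℝ) ^ (δ - 1)

lemma W_nonneg (y : ℕ) : 0 ≤ Pool.Agent.TN.W y := by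
  unfold Pool.Agent.TN.W
  exact Finset.sum_nonneg fun _ _ => by positivity

lemma sum_primes_le (δ : ℝ) (hδ0 : 0 ≤ δ) (hδ1 : δ ≤ 1) (y : ℕ) (hy : 1 ≤ y) {v : ℕ} (hv : v ≠ 0) :
    ∑ q ∈ v.primeFactors, (q : ℝ) ^ (-(1 - δ)) ≤ XX y v δ := by
  have hyR : (1 : ℝ) ≤ y := by exact_mod_cast hy
  rw [← Finset.sum_filter_add_sum_filter_not v.primeFactors (fun q => q ≤ y)]
  unfold XX
  apply add_le_add
  · unfold Pool.Agent.TN.W
    rw [Finset.mul_sum]
    have h1 : ∀ q ∈ v.primeFactors.filter (fun q => q ≤ y), (q : ℝ) ^ (-(1 - δ)) ≤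
        (y : ℝ) ^ δ * (1 / q) := by
      intro q hq
      rw [Finset.mem_filter] at hq
      have hq0 : (0 : ℝ) < q := by exact_mod_cast (Nat.prime_of_mem_primeFactors hq.1).pos
      have e : (q : ℝ) ^ (-(1 - δ)) = (q : ℝ) ^ δ * (1 / q) := by
        rw [show -(1 - δ) = δ - 1 by ring, Real.rpow_sub_one hq0.ne']
        ring
      rw [e]
      apply mul_le_mul_of_nonneg_right _ (by positivity)
      exact Real.rpow_le_rpow hq0.le (by exact_mod_cast hq.2) hδ0
    refine (Finset.sum_le_sum h1).trans ?_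
    apply Finset.sum_le_sum_of_subset_of_nonneg
    · intro q hq
      rw [Finset.mem_filter] at hq
      have hqp := Nat.prime_of_mem_primeFactors hq.1
      rw [Finset.mem_filter, Finset.mem_Icc]
      exact ⟨⟨hqp.one_le, hq.2⟩, hqp⟩
    · intro q _ _
      positivity
  · have h1 : ∀ q ∈ v.primeFactors.filter (fun q => ¬ q ≤ y), (q : ℝ) ^ (-(1 - δ)) ≤
        (y : ℝ) ^ (δ - 1) := by
      intro q hq
      rw [Finset.mem_filter] at hq
      rw [show -(1 - δ) = δ - 1 by ring]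
      apply Real.rpow_le_rpow_of_nonpos (by linarith) _ (by linarith)
      exact_mod_cast (not_le.1 hq.2).le
    refine (Finset.sum_le_sum h1).trans ?_
    rw [Finset.sum_const, nsmul_eq_mul]
    apply mul_le_mul_of_nonneg_right _ (by positivity)
    have h2 := Pool.Agent.TN.card_primeFactors_le_log hv
    exact_mod_cast (Finset.card_filter_le _ _).trans h2

theorem RR_le (δ : ℝ) (hδ0 : 0 ≤ δ) (hδ1 : δ ≤ 1 / 2) (y : ℕ) (hy : 1 ≤ y) (Q B D v : ℕ)
    (hQ : 1 ≤ Q) (hB : 1 ≤ B) (hv : v ≠ 0) :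
    RR Q B D v ≤ (1 + Nat.log 2 D) * ((B : ℝ) / Q) ^ (-δ) *
      Real.exp (4 * Real.exp (4 * XX y v δ)) := by
  classical
  have hQR : (0 : ℝ) < Q := by exact_mod_cast hQ
  have hBR : (0 : ℝ) < B := by exact_mod_cast hB
  have h1 : ∀ c ∈ CCC Q B D v, 1 / (φ c : ℝ) ≤
      (1 + Nat.log 2 D) * ((B : ℝ) / Q) ^ (-δ) * (c : ℝ) ^ (-(1 - δ)) := by
    intro c hc
    unfold CCC at hc
    rw [Finset.mem_filter, Finset.mem_Icc] at hc
    obtain ⟨⟨hc1, hc2⟩, hc3, -⟩ := hc
    have h2 := Pool.Agent.TN.le_totient_mul (n := c) (by omega)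
    have hφ : (0 : ℝ) < φ c := by exact_mod_cast Nat.totient_pos.2 (by omega : 0 < c)
    have hc0 : (0 : ℝ) < c := by exact_mod_cast (by omega : 0 < c)
    have h3 : (c : ℝ) ≤ φ c * (1 + Nat.log 2 c) := by exact_mod_cast h2
    have h4 : (Nat.log 2 c : ℝ) ≤ Nat.log 2 D := by
      exact_mod_cast Nat.log_mono_right hc2
    have h5 : 1 / (φ c : ℝ) ≤ (1 + Nat.log 2 D) * (1 / c) := by
      rw [mul_one_div, div_le_div_iff₀ hφ hc0]
      nlinarith
    have h6 : (1 : ℝ) / c = (c : ℝ) ^ (-δ) * (c : ℝ) ^ (-(1 - δ)) := by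
      rw [← Real.rpow_add hc0, show -δ + -(1 - δ) = -1 by ring, Real.rpow_neg_one, one_div]
    have h7 : (c : ℝ) ^ (-δ) ≤ ((B : ℝ) / Q) ^ (-δ) := by
      apply Real.rpow_le_rpow_of_nonpos (by positivity) _ (by linarith)
      rw [div_le_iff₀ hQR]
      exact_mod_cast hc3
    rw [h6] at h5
    refine h5.trans ?_
    rw [mul_assoc]
    apply mul_le_mul_of_nonneg_left _ (by positivity)
    exact mul_le_mul_of_nonneg_right h7 (by positivity)
  unfold RR
  refine (Finset.sum_le_sum h1).trans ?_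
  rw [← Finset.mul_sum]
  apply mul_le_mul_of_nonneg_left _ (by positivity)
  refine (sum_rpow_le (1 - δ) (by linarith) (v.divisors.image (fun d => d + 1)) _ ?_).trans ?_
  · intro c hc p hp hpc
    unfold CCC at hc
    rw [Finset.mem_filter, Finset.mem_Icc] at hc
    obtain ⟨⟨hc1, hc2⟩, -, hc4⟩ := hc
    rw [Finset.mem_image]
    refine ⟨p - 1, Nat.mem_divisors.2 ⟨?_, hv⟩, by have := hp.pos; omega⟩
    have h8 := Nat.totient_dvd_of_dvd hpc
    rw [Nat.totient_prime hp] at h8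
    exact h8.trans hc4
  · apply Real.exp_le_exp.2
    apply mul_le_mul_of_nonneg_left _ (by norm_num)
    calc ∑ p ∈ (v.divisors.image (fun d => d + 1)).filter Nat.Prime, ((p : ℕ) : ℝ) ^ (-(1 - δ))
        ≤ ∑ p ∈ v.divisors.image (fun d => d + 1), ((p : ℕ) : ℝ) ^ (-(1 - δ)) :=
          Finset.sum_le_sum_of_subset_of_nonneg (Finset.filter_subset _ _)
            (fun _ _ _ => by positivity)
      _ = ∑ d ∈ v.divisors, ((d + 1 : ℕ) : ℝ) ^ (-(1 - δ)) := by
          rw [Finset.sum_image (fun x _ y _ h => Nat.succ_injective h)]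
      _ ≤ ∑ d ∈ v.divisors, (d : ℝ) ^ (-(1 - δ)) := by
          refine Finset.sum_le_sum fun d hd => ?_
          have hd0 : (0 : ℝ) < d := by exact_mod_cast Nat.pos_of_mem_divisors hd
          apply Real.rpow_le_rpow_of_nonpos hd0 _ (by linarith)
          push_cast
          linarith
      _ ≤ Real.exp (4 * ∑ q ∈ v.primeFactors, (q : ℝ) ^ (-(1 - δ))) :=
          sum_div_le (1 - δ) (by linarith) hv
      _ ≤ Real.exp (4 * XX y v δ) := by
          apply Real.exp_le_exp.2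
          apply mul_le_mul_of_nonneg_left _ (by norm_num)
          exact sum_primes_le δ hδ0 (by linarith) y hy hv

end Pool.Agent.Helper69.LT
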