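import Pool.Agent.Helper69.LT.Large
import Pool.Agent.Helper69.LT.Rankin

set_option autoImplicit false

/-!
# LT-7b: one class of factorisations
-/

open Finset
open scoped Nat

namespace Pool.Agent.Helper69.LT

/-- the contribution of the large conductors to one class -/
noncomputable def EE (Q D : ℕ) (u1 u2 : ℕ) : ℝ :=
  ((1 + Nat.log 2 D) * (1 + Real.log D)) *
      ((Nat.log 2 D + 1) * (5 * (((u1 : ℝ) + u2) / Q + 4 * D) * Real.sqrt (u1 * u2)))

theorem per_class (Q B D v t : ℕ) (hQ : 1 ≤ Q) (hD : 1 ≤ D) (A M : Finset ℕ) (u1 u2 : ℕ)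
    (hA : ∀ a ∈ A, a < u1) (hM : ∀ m ∈ M, m < u2)
    (ht1 : ∀ b ∈ Icc 1 D, b.divisors.card ≤ t)
    (ht2 : ∀ a ∈ A, ∀ m ∈ M, (a * m + 1).divisors.card ≤ t) :
    ∑ b ∈ BB B D v, (TT b A M : ℝ) ≤
      (t : ℝ) ^ 2 * RR Q B D v * ((A.card : ℝ) * M.card) + EE Q D u1 u2 := by
  classical
  have h1 : ∀ b ∈ BB B D v, (TT b A M : ℝ) ≤
      ∑ z ∈ A ×ˢ M, (SP Q b (z.1 * z.2) : ℝ) / φ b + LP Q b A M / φ b := by
    intro b hb
    unfold BB at hb
    rw [Finset.mem_filter, Finset.mem_Icc] at hb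
    have hφ : (0 : ℝ) < φ b := by exact_mod_cast Nat.totient_pos.2 (by omega : 0 < b)
    have h2 := count_le Q b hb.1.1 A M
    rw [← Finset.sum_div, ← add_div, le_div_iff₀ hφ, mul_comm]
    exact h2
  refine (Finset.sum_le_sum h1).trans ?_
  rw [Finset.sum_add_distrib]
  apply add_le_add
  · rw [Finset.sum_comm]
    have h3 : ∀ z ∈ A ×ˢ M, ∑ b ∈ BB B D v, (SP Q b (z.1 * z.2) : ℝ) / φ b ≤
        (t : ℝ) ^ 2 * RR Q B D v := by
      intro z hz
      rw [Finset.mem_product] at hz
      exact small Q B D v (z.1 * z.2) t ht1 (ht2 _ hz.1 _ hz.2)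
    refine (Finset.sum_le_sum h3).trans (le_of_eq ?_)
    rw [Finset.sum_const, Finset.card_product, nsmul_eq_mul]
    push_cast
    ring
  · have h4 : ∑ b ∈ BB B D v, LP Q b A M / φ b ≤ ∑ b ∈ Icc 1 D, LP Q b A M / φ b := by
      apply Finset.sum_le_sum_of_subset_of_nonneg (Finset.filter_subset _ _)
      intro b _ _
      have : 0 ≤ LP Q b A M := Finset.sum_nonneg fun _ _ => Finset.sum_nonneg fun _ _ => by
        positivity
      positivity
    refine h4.trans ((large Q D hQ hD A M u1 u2 hA hM).trans ?_)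
    unfold EE
    have hlog : 0 ≤ Real.log D := Real.log_nonneg (by exact_mod_cast hD)
    apply mul_le_mul_of_nonneg_left _ (by positivity)
    apply mul_le_mul_of_nonneg_left _ (by positivity)
    apply mul_le_mul_of_nonneg_left _ (by positivity)
    apply Real.sqrt_le_sqrt
    have hcA : (A.card : ℝ) ≤ u1 := by
      have : A.card ≤ u1 := by
        have h5 : A ⊆ range u1 := fun a ha => Finset.mem_range.2 (hA a ha)
        simpa using Finset.card_le_card h5
      exact_mod_cast this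
    have hcM : (M.card : ℝ) ≤ u2 := by
      have : M.card ≤ u2 := by
        have h5 : M ⊆ range u2 := fun a ha => Finset.mem_range.2 (hM a ha)
        simpa using Finset.card_le_card h5
      exact_mod_cast this
    exact mul_le_mul hcA hcM (Nat.cast_nonneg _) (Nat.cast_nonneg _)

end Pool.Agent.Helper69.LT
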