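import Pool.Agent.Helper69.LT.Char

set_option autoImplicit false

/-!
# LT-2: the number of solutions of `b ∣ a m + 1`
-/

open Finset
open scoped Nat

namespace Pool.Agent.Helper69.LT

open Pool.Agent.Helper6.ER

/-- the number of pairs with `b ∣ a m + 1` -/
def TT (b : ℕ) (A M : Finset ℕ) : ℕ := ((A ×ˢ M).filter (fun z => b ∣ z.1 * z.2 + 1)).card

/-- the small conductor part -/
def SP (Q b k : ℕ) : ℕ := ∑ f ∈ b.divisors.filter (fun f => f ≤ Q),
  ∑ r ∈ f.divisors.filter (fun r => r ∣ k + 1), φ r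

/-- the elements of `A` coprime to `b` -/
def cop (b : ℕ) (A : Finset ℕ) : Finset ℕ := A.filter (fun a => Nat.Coprime a b)

/-- the large conductor part -/
noncomputable def LP (Q b : ℕ) (A M : Finset ℕ) : ℝ := ∑ f ∈ b.divisors.filter (fun f => Q < f),
  ∑ ψ ∈ prim f, ‖∑ a ∈ cop b A, ψ (a : ZMod f)‖ * ‖∑ m ∈ cop b M, ψ (m : ZMod f)‖

lemma int_dvd_iff (b a m : ℕ) : (b : ℤ) ∣ -((a : ℤ) * m) - 1 ↔ b ∣ a * m + 1 := by
  have h : -((a : ℤ) * m) - 1 = -((a * m + 1 : ℕ) : ℤ) := by push_cast; ring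
  rw [h, dvd_neg, Int.natCast_dvd_natCast]

lemma coprime_neg {b a m : ℕ} (ha : Nat.Coprime a b) (hm : Nat.Coprime m b) :
    IsCoprime (-((a : ℤ) * m)) (b : ℤ) := by
  have h1 : IsCoprime (a : ℤ) (b : ℤ) := Nat.isCoprime_iff_coprime.2 ha
  have h2 : IsCoprime (m : ℤ) (b : ℤ) := Nat.isCoprime_iff_coprime.2 hm
  exact (IsCoprime.mul_left h1 h2).neg_left

theorem count_le (Q b : ℕ) (hb : 1 ≤ b) (A M : Finset ℕ) :
    (φ b : ℝ) * TT b A M ≤ ∑ z ∈ A ×ˢ M, (SP Q b (z.1 * z.2) : ℝ) + LP Q b A M := by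
  classical
  -- the restricted product
  have hTT : TT b A M = ((cop b A ×ˢ cop b M).filter (fun z => b ∣ z.1 * z.2 + 1)).card := by
    unfold TT cop
    congr 1
    ext ⟨a, m⟩
    simp only [mem_filter, mem_product]
    constructor
    · rintro ⟨⟨h1, h2⟩, h3⟩
      have h4 : Nat.Coprime (a * m) b := by
        have h5 : Nat.Coprime (a * m) (a * m + 1) := by simp
        exact h5.coprime_dvd_right h3
      exact ⟨⟨⟨h1, h4.coprime_mul_right⟩, ⟨h2, h4.coprime_mul_left⟩⟩, h3⟩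
    · rintro ⟨⟨⟨h1, -⟩, ⟨h2, -⟩⟩, h3⟩
      exact ⟨⟨h1, h2⟩, h3⟩
  -- exact formula
  have hex : ((φ b : ℝ) * TT b A M : ℂ) =
      ∑ f ∈ b.divisors, ∑ z ∈ cop b A ×ˢ cop b M, cs f (-((z.1 : ℤ) * z.2)) := by
    rw [Finset.sum_comm, hTT, Finset.card_filter]
    push_cast
    rw [Finset.mul_sum]
    refine Finset.sum_congr rfl fun z hz => ?_
    rw [Finset.mem_product] at hz
    have h1 := (Finset.mem_filter.1 hz.1).2
    have h2 := (Finset.mem_filter.1 hz.2).2
    rw [sum_cs b hb _ (coprime_neg h1 h2)]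
    simp only [int_dvd_iff]
    split_ifs <;> simp
  -- splitting
  have hsplit : ∑ f ∈ b.divisors, ∑ z ∈ cop b A ×ˢ cop b M, cs f (-((z.1 : ℤ) * z.2)) =
      ∑ f ∈ b.divisors.filter (fun f => f ≤ Q), ∑ z ∈ cop b A ×ˢ cop b M,
        cs f (-((z.1 : ℤ) * z.2)) +
      ∑ f ∈ b.divisors.filter (fun f => Q < f), ∑ z ∈ cop b A ×ˢ cop b M,
        cs f (-((z.1 : ℤ) * z.2)) := by
    rw [← Finset.sum_filter_add_sum_filter_not b.divisors (fun f => f ≤ Q)]
    simp only [not_le]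
  have hsmall : ‖∑ f ∈ b.divisors.filter (fun f => f ≤ Q), ∑ z ∈ cop b A ×ˢ cop b M,
        cs f (-((z.1 : ℤ) * z.2))‖ ≤ ∑ z ∈ A ×ˢ M, (SP Q b (z.1 * z.2) : ℝ) := by
    rw [Finset.sum_comm]
    refine (norm_sum_le _ _).trans ?_
    have hsub : cop b A ×ˢ cop b M ⊆ A ×ˢ M :=
      Finset.product_subset_product (Finset.filter_subset _ _) (Finset.filter_subset _ _)
    refine le_trans ?_ (Finset.sum_le_sum_of_subset_of_nonneg hsub
      (fun _ _ _ => Nat.cast_nonneg _))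
    refine Finset.sum_le_sum fun z hz => ?_
    rw [Finset.mem_product] at hz
    have h1 := (Finset.mem_filter.1 hz.1).2
    have h2 := (Finset.mem_filter.1 hz.2).2
    refine (norm_sum_le _ _).trans ?_
    unfold SP
    push_cast
    refine Finset.sum_le_sum fun f hf => ?_
    rw [Finset.mem_filter] at hf
    have hfb := Nat.dvd_of_mem_divisors hf.1
    have hf1 : 1 ≤ f := Nat.pos_of_mem_divisors hf.1
    refine (norm_cs_le f hf1 _ (IsCoprime.of_isCoprime_of_dvd_right (coprime_neg h1 h2)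
      (Int.natCast_dvd_natCast.2 hfb))).trans (le_of_eq ?_)
    rw [Finset.sum_filter]
    refine Finset.sum_congr rfl fun r _ => ?_
    simp only [int_dvd_iff]
  have hlarge : ‖∑ f ∈ b.divisors.filter (fun f => Q < f), ∑ z ∈ cop b A ×ˢ cop b M,
        cs f (-((z.1 : ℤ) * z.2))‖ ≤ LP Q b A M := by
    refine (norm_sum_le _ _).trans ?_
    unfold LP
    refine Finset.sum_le_sum fun f _ => ?_
    have h1 : ∑ z ∈ cop b A ×ˢ cop b M, cs f (-((z.1 : ℤ) * z.2)) =
        ∑ ψ ∈ prim f, ψ (-1) * ((∑ a ∈ cop b A, ψ (a : ZMod f)) *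
          ∑ m ∈ cop b M, ψ (m : ZMod f)) := by
      unfold cs
      rw [Finset.sum_comm]
      refine Finset.sum_congr rfl fun ψ _ => ?_
      rw [Finset.sum_mul_sum, ← Finset.sum_product', Finset.mul_sum]
      refine Finset.sum_congr rfl fun z _ => ?_
      rw [← map_mul, ← map_mul]
      congr 1
      push_cast
      ring
    rw [h1]
    refine (norm_sum_le _ _).trans (Finset.sum_le_sum fun ψ _ => ?_)
    rw [norm_mul, norm_mul]
    have h2 : ‖ψ (-1)‖ ≤ 1 := DirichletCharacter.norm_le_one ψ _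
    have h3 : 0 ≤ ‖∑ a ∈ cop b A, ψ (a : ZMod f)‖ * ‖∑ m ∈ cop b M, ψ (m : ZMod f)‖ := by
      positivity
    nlinarith
  have hfin : (φ b : ℝ) * TT b A M = ‖((φ b : ℝ) * TT b A M : ℂ)‖ := by
    rw [← Complex.ofReal_natCast (TT b A M), ← Complex.ofReal_mul, Complex.norm_real,
      Real.norm_of_nonneg (by positivity)]
  rw [hfin, hex, hsplit]
  exact (norm_add_le _ _).trans (add_le_add hsmall hlarge)

end Pool.Agent.Helper69.LT
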