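import Pool.Agent.Helper9.TN.Basic

set_option autoImplicit false

/-!
# LT-7a: cutting `n` at a prime, and choosing a divisor of `n + 1`
-/

open Finset
open scoped Nat

namespace Pool.Agent.Helper69.LT

open Pool.Agent.TN

/-- Cutting `n` at a prime. -/
theorem exists_cut {n w A0 : ℕ} (hn : n ≠ 0) (hw : ∀ p, p.Prime → p ∣ n → p ≤ w) (hA0 : 2 ≤ A0)
    (hA : A0 ≤ n) : ∃ P a m : ℕ, P.Prime ∧ P ∣ a ∧ a * m = n ∧ A0 ≤ a ∧
      a < A0 * P ^ n.factorization P ∧ (∀ q, q.Prime → q ∣ a → q ≤ P) ∧
      (∀ q, q.Prime → q ∣ m → P < q) := by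
  classical
  set s := n.primeFactors with hs
  set g : ℕ → ℕ := fun P => ∏ q ∈ s.filter (fun q => q ≤ P), q ^ n.factorization q with hg
  have hfull : ∏ q ∈ s, q ^ n.factorization q = n := by
    conv_rhs => rw [← Nat.prod_factorization_pow_eq_self hn]
    rw [Finsupp.prod, Nat.support_factorization]
  have hgw : g w = n := by
    simp only [hg]
    rw [Finset.filter_true_of_mem, hfull]
    intro q hq
    exact hw q (Nat.prime_of_mem_primeFactors hq) (Nat.dvd_of_mem_primeFactors hq)
  have hex : ∃ P, A0 ≤ g P := ⟨w, by rw [hgw]; exact hA⟩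
  set P := Nat.find hex with hP
  have hP1 : A0 ≤ g P := Nat.find_spec hex
  have hg0 : g 0 = 1 := by
    simp only [hg]
    rw [Finset.filter_false_of_mem, Finset.prod_empty]
    intro q hq
    have := (Nat.prime_of_mem_primeFactors hq).pos
    omega
  have hP0 : P ≠ 0 := by
    intro h0
    rw [h0, hg0] at hP1
    omega
  have hPmin : g (P - 1) < A0 := by
    have := Nat.find_min hex (m := P - 1) (by omega)
    omega
  have hPs : P ∈ s := by
    by_contra hcon
    have : s.filter (fun q => q ≤ P) = s.filter (fun q => q ≤ P - 1) := by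
      apply Finset.filter_congr
      intro q hq
      have hne : q ≠ P := fun h => hcon (h ▸ hq)
      omega
    have h2 : g P = g (P - 1) := by simp only [hg]; rw [this]
    omega
  have hPp : P.Prime := Nat.prime_of_mem_primeFactors hPs
  have hins : s.filter (fun q => q ≤ P) = insert P (s.filter (fun q => q ≤ P - 1)) := by
    ext q
    simp only [Finset.mem_filter, Finset.mem_insert]
    constructor
    · rintro ⟨h1, h2⟩
      rcases Nat.eq_or_lt_of_le h2 with h3 | h3
      · exact Or.inl h3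
      · exact Or.inr ⟨h1, by omega⟩
    · rintro (h | ⟨h1, h2⟩)
      · subst h
        exact ⟨hPs, le_rfl⟩
      · exact ⟨h1, by omega⟩
  have hgP : g P = P ^ n.factorization P * g (P - 1) := by
    simp only [hg]
    rw [hins, Finset.prod_insert]
    intro h
    have := (Finset.mem_filter.1 h).2
    have := hPp.pos
    omega
  have he : n.factorization P ≠ 0 := by
    have : P ∣ n := Nat.dvd_of_mem_primeFactors hPs
    exact (hPp.factorization_pos_of_dvd hn this).ne'
  refine ⟨P, g P, ∏ q ∈ s.filter (fun q => ¬ q ≤ P), q ^ n.factorization q, hPp, ?_, ?_, hP1, ?_,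
    ?_, ?_⟩
  · rw [hgP]
    exact (dvd_pow_self P he).mul_right _
  · simp only [hg]
    rw [Finset.prod_filter_mul_prod_filter_not, hfull]
  · rw [hgP, mul_comm A0]
    exact Nat.mul_lt_mul_of_pos_left hPmin (pow_pos hPp.pos _)
  · intro q hq hqd
    obtain ⟨r, hr, hqr⟩ := (Prime.dvd_finsetProd_iff hq.prime _).1 hqd
    have h1 := hq.dvd_of_dvd_pow hqr
    rw [Finset.mem_filter] at hr
    rw [(Nat.prime_dvd_prime_iff_eq hq (Nat.prime_of_mem_primeFactors hr.1)).1 h1]
    exact hr.2
  · intro q hq hqd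
    obtain ⟨r, hr, hqr⟩ := (Prime.dvd_finsetProd_iff hq.prime _).1 hqd
    have h1 := hq.dvd_of_dvd_pow hqr
    rw [Finset.mem_filter] at hr
    rw [(Nat.prime_dvd_prime_iff_eq hq (Nat.prime_of_mem_primeFactors hr.1)).1 h1]
    omega

/-- A divisor of medium size of a number with small prime factors. -/
theorem exists_medium (B w : ℕ) (hB : 1 ≤ B) (hw0 : 1 ≤ w) (n : ℕ) (hw : ∀ p, p.Prime → p ∣ n → p ≤ w)
    (hn : B ≤ n) : ∃ b, b ∣ n ∧ B ≤ b ∧ b ≤ B * w := by
  induction n using Nat.strong_induction_on with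
  | _ n ih =>
    by_cases h : n ≤ B * w
    · exact ⟨n, dvd_refl n, hn, h⟩
    · push Not at h
      have h1 : n ≠ 1 := by
        intro h1
        have : 1 ≤ B * w := Nat.mul_pos hB hw0
        omega
      obtain ⟨p, hp, hpn⟩ := Nat.exists_prime_and_dvd h1
      have hpw := hw p hp hpn
      have hlt : n / p < n := Nat.div_lt_self (by omega) hp.one_lt
      have hBn : B ≤ n / p := by
        rw [Nat.le_div_iff_mul_le hp.pos]
        calc B * p ≤ B * w := Nat.mul_le_mul_left _ hpw
          _ ≤ n := h.le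
      obtain ⟨b, hb1, hb2, hb3⟩ := ih (n / p) hlt
        (fun q hq hqd => hw q hq (hqd.trans (Nat.div_dvd_of_dvd hpn))) hBn
      exact ⟨b, hb1.trans (Nat.div_dvd_of_dvd hpn), hb2, hb3⟩

lemma KK_mul {a b : ℕ} (ha : a ≠ 0) (hb : b ≠ 0) (h : a.Coprime b) : KK (a * b) = KK a * KK b := by
  have h1 := totient_eq (n := a * b) (Nat.mul_ne_zero ha hb)
  rw [Nat.totient_mul h, totient_eq ha, totient_eq hb, U_mul h] at h1
  have h2 : U a * U b * (KK a * KK b) = U a * U b * KK (a * b) := by
    rw [← h1]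
    ring
  exact (Nat.eq_of_mul_eq_mul_left (Nat.mul_pos (U_pos a) (U_pos b)) h2).symm

end Pool.Agent.Helper69.LT
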