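import Pool.Agent.Helper69.LT.Class
import Pool.Agent.Helper69.LT.Cut

set_option autoImplicit false

/-!
# LT-8: covering the good starts by the classes
-/

open Finset
open scoped Nat

namespace Pool.Agent.Helper69.LT

open Pool.Agent.TN

/-- the large factor -/
noncomputable def AAs (A0 w K : ℕ) (c : ℕ × ℕ × ℕ) : Finset ℕ := by
  classical
  exact (range (A0 * (w * K))).filter (fun a => 1 ≤ a ∧ c.2.1 ∣ a ∧
    (∀ q : ℕ, q.Prime → q ∣ a → q ≤ c.2.1) ∧ KK a ≤ K ∧ φ a = c.2.2)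

/-- the rough factor -/
noncomputable def MMs (N A0 K : ℕ) (c : ℕ × ℕ × ℕ) : Finset ℕ := by
  classical
  exact (range (N / A0 + 1)).filter (fun m => 1 ≤ m ∧
    (∀ q : ℕ, q.Prime → q ∣ m → c.2.1 < q) ∧ KK m ≤ K ∧ φ m * c.2.2 = c.1)

/-- the classes -/
def Cls (N K y w : ℕ) (V : Finset ℕ) : Finset (ℕ × ℕ × ℕ) :=
  (V ×ˢ (Icc 1 w ×ˢ Icc 1 N)).filter (fun c => c.2.2 ∣ c.1 ∧ c.2.1.Prime ∧ 1 ≤ c.1 ∧ c.1 ≤ N ∧
    N ≤ K * sm y c.1)

/-- the exceptional set -/
def TTs (N N' K y : ℕ) : Finset ℕ := (Icc 1 N').filter (fun n => N ≤ K ^ 3 * sm y (U n))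

lemma mem_AAs {A0 w K : ℕ} {c : ℕ × ℕ × ℕ} {a : ℕ} : a ∈ AAs A0 w K c ↔ a < A0 * (w * K) ∧
    1 ≤ a ∧ c.2.1 ∣ a ∧ (∀ q : ℕ, q.Prime → q ∣ a → q ≤ c.2.1) ∧ KK a ≤ K ∧ φ a = c.2.2 := by
  classical
  unfold AAs
  rw [Finset.mem_filter, Finset.mem_range]

lemma mem_MMs {N A0 K : ℕ} {c : ℕ × ℕ × ℕ} {m : ℕ} : m ∈ MMs N A0 K c ↔ m < N / A0 + 1 ∧
    1 ≤ m ∧ (∀ q : ℕ, q.Prime → q ∣ m → c.2.1 < q) ∧ KK m ≤ K ∧ φ m * c.2.2 = c.1 := by
  classical
  unfold MMs
  rw [Finset.mem_filter, Finset.mem_range]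

lemma coprime_of {a m P : ℕ} (ha : ∀ q : ℕ, q.Prime → q ∣ a → q ≤ P)
    (hm : ∀ q : ℕ, q.Prime → q ∣ m → P < q) : Nat.Coprime a m := by
  rw [Nat.coprime_iff_gcd_eq_one]
  by_contra hne
  obtain ⟨p, hp, hpd⟩ := Nat.exists_prime_and_dvd hne
  have h1 := ha p hp (hpd.trans (Nat.gcd_dvd_left _ _))
  have h2 := hm p hp (hpd.trans (Nat.gcd_dvd_right _ _))
  omega

/-- the number of classes -/
lemma card_Cls {N K y w t : ℕ} {V : Finset ℕ} (ht : ∀ m : ℕ, 1 ≤ m → m ≤ N → m.divisors.card ≤ t) :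
    (Cls N K y w V).card ≤ V.card * w * t := by
  classical
  have hsub : Cls N K y w V ⊆
      (V.filter (fun v => 1 ≤ v ∧ v ≤ N)).biUnion
        (fun v => (Icc 1 w ×ˢ v.divisors).image (fun z => (v, z))) := by
    intro c hc
    unfold Cls at hc
    rw [Finset.mem_filter, Finset.mem_product, Finset.mem_product] at hc
    obtain ⟨⟨h1, h2, h3⟩, h4, -, h5, h6, -⟩ := hc
    rw [Finset.mem_biUnion]
    refine ⟨c.1, Finset.mem_filter.2 ⟨h1, h5, h6⟩, ?_⟩
    rw [Finset.mem_image]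
    exact ⟨c.2, Finset.mem_product.2 ⟨h2, Nat.mem_divisors.2 ⟨h4, by omega⟩⟩, rfl⟩
  refine (Finset.card_le_card hsub).trans (Finset.card_biUnion_le.trans ?_)
  have h1 : ∀ v ∈ V.filter (fun v => 1 ≤ v ∧ v ≤ N),
      ((Icc 1 w ×ˢ v.divisors).image (fun z => (v, z))).card ≤ w * t := by
    intro v hv
    rw [Finset.mem_filter] at hv
    refine Finset.card_image_le.trans ?_
    rw [Finset.card_product, Nat.card_Icc]
    exact Nat.mul_le_mul (by omega) (ht v hv.2.1 hv.2.2)
  refine (Finset.sum_le_card_nsmul _ _ _ h1).trans ?_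
  rw [smul_eq_mul, mul_assoc]
  exact Nat.mul_le_mul_right _ (Finset.card_filter_le _ _)

/-- the sum of the sizes of the classes -/
lemma sum_card_le {N N' K y w A0 : ℕ} {V : Finset ℕ}
    (hN' : N * (1 + Nat.log 2 (A0 * (w * K) * (N / A0 + 1))) ≤ N') :
    ∑ c ∈ Cls N K y w V, (AAs A0 w K c).card * (MMs N A0 K c).card ≤
      Nat.log 2 N' * (TTs N N' K y).card := by
  classical
  have h1 : ∑ c ∈ Cls N K y w V, (AAs A0 w K c).card * (MMs N A0 K c).card =
      ((Cls N K y w V).sigma (fun c => AAs A0 w K c ×ˢ MMs N A0 K c)).card := by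
    rw [Finset.card_sigma]
    exact Finset.sum_congr rfl fun c _ => (Finset.card_product _ _).symm
  rw [h1]
  have h2 : ((Cls N K y w V).sigma (fun c => AAs A0 w K c ×ˢ MMs N A0 K c)).card ≤
      ((TTs N N' K y).sigma (fun n => n.primeFactors)).card := by
    apply Finset.card_le_card_of_injOn
      (fun x => (⟨x.2.1 * x.2.2, x.1.2.1⟩ : Σ _ : ℕ, ℕ))
    · rintro ⟨c, a, m⟩ hx
      rw [Finset.mem_coe, Finset.mem_sigma, Finset.mem_product] at hx
      obtain ⟨hc, ha, hm⟩ := hx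
      simp only at ha hm hc ⊢
      rw [mem_AAs] at ha
      rw [mem_MMs] at hm
      unfold Cls at hc
      rw [Finset.mem_filter, Finset.mem_product, Finset.mem_product] at hc
      obtain ⟨-, hc1, hc2, hc3, hc4, hc5⟩ := hc
      obtain ⟨ha1, ha2, ha3, ha4, ha5, ha6⟩ := ha
      obtain ⟨hm1, hm2, hm3, hm4, hm5⟩ := hm
      have hco := coprime_of ha4 hm3
      have hφ : φ (a * m) = c.1 := by
        rw [Nat.totient_mul hco, ha6, mul_comm, hm5]
      have hne : a * m ≠ 0 := Nat.mul_ne_zero (by omega) (by omega)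
      rw [Finset.mem_coe, Finset.mem_sigma]
      refine ⟨?_, ?_⟩
      · unfold TTs
        rw [Finset.mem_filter, Finset.mem_Icc]
        refine ⟨⟨Nat.pos_of_ne_zero hne, ?_⟩, ?_⟩
        · have h3 := le_totient_mul hne
          rw [hφ] at h3
          have h4 : a * m ≤ A0 * (w * K) * (N / A0 + 1) := Nat.mul_le_mul ha1.le hm1.le
          calc a * m ≤ c.1 * (1 + Nat.log 2 (a * m)) := h3
            _ ≤ N * (1 + Nat.log 2 (A0 * (w * K) * (N / A0 + 1))) :=
              Nat.mul_le_mul hc4 (Nat.add_le_add_left (Nat.log_mono_right h4) 1)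
            _ ≤ N' := hN'
        · have h3 : KK (a * m) ≤ K * K := by
            rw [KK_mul (by omega) (by omega) hco]
            exact Nat.mul_le_mul ha5 hm4
          have h4 : c.1 = U (a * m) * KK (a * m) := by rw [← hφ, totient_eq hne]
          have h5 : sm y c.1 = sm y (U (a * m)) * sm y (KK (a * m)) := by
            rw [h4, sm_mul (U_pos _).ne' (KK_pos hne).ne']
          have h6 : sm y (KK (a * m)) ≤ K * K :=
            (Nat.le_of_dvd (KK_pos hne) (sm_dvd (KK_pos hne).ne')).trans h3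
          calc N ≤ K * sm y c.1 := hc5
            _ = K * (sm y (U (a * m)) * sm y (KK (a * m))) := by rw [h5]
            _ ≤ K * (sm y (U (a * m)) * (K * K)) :=
              Nat.mul_le_mul_left _ (Nat.mul_le_mul_left _ h6)
            _ = K ^ 3 * sm y (U (a * m)) := by ring
      · rw [Nat.mem_primeFactors]
        exact ⟨hc2, ha3.mul_right _, hne⟩
    · rintro ⟨c, a, m⟩ hx ⟨c', a', m'⟩ hx' heq
      rw [Finset.mem_coe, Finset.mem_sigma, Finset.mem_product] at hx hx'
      obtain ⟨hc, ha, hm⟩ := hx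
      obtain ⟨hc', ha', hm'⟩ := hx'
      simp only at ha hm hc ha' hm' hc'
      simp only [Sigma.mk.injEq, heq_eq_eq] at heq
      obtain ⟨hprod, hP⟩ := heq
      rw [mem_AAs] at ha ha'
      rw [mem_MMs] at hm hm'
      obtain ⟨ha1, ha2, ha3, ha4, ha5, ha6⟩ := ha
      obtain ⟨hm1, hm2, hm3, hm4, hm5⟩ := hm
      obtain ⟨ha1', ha2', ha3', ha4', ha5', ha6'⟩ := ha'
      obtain ⟨hm1', hm2', hm3', hm4', hm5'⟩ := hm'
      have haa : a = a' := by
        apply Nat.dvd_antisymm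
        · have h3 : Nat.Coprime a m' := coprime_of ha4 (fun q hq hqd => hP ▸ hm3' q hq hqd)
          exact h3.dvd_of_dvd_mul_right (hprod ▸ Nat.dvd_mul_right a m)
        · have h3 : Nat.Coprime a' m := coprime_of ha4' (fun q hq hqd => hP ▸ hm3 q hq hqd)
          exact h3.dvd_of_dvd_mul_right (hprod ▸ Nat.dvd_mul_right a' m')
      subst haa
      have hmm : m = m' := Nat.eq_of_mul_eq_mul_left (by omega) hprod
      subst hmm
      have hcc : c = c' := by
        obtain ⟨c1, c2, c3⟩ := c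
        obtain ⟨d1, d2, d3⟩ := c'
        simp only at hP ha6 ha6' hm5 hm5'
        have h3 : c3 = d3 := by rw [← ha6, ← ha6']
        have h4 : c1 = d1 := by rw [← hm5, ← hm5', h3]
        rw [h3, h4, hP]
      subst hcc
      rfl
  refine h2.trans ?_
  rw [Finset.card_sigma]
  have h3 : ∀ n ∈ TTs N N' K y, n.primeFactors.card ≤ Nat.log 2 N' := by
    intro n hn
    unfold TTs at hn
    rw [Finset.mem_filter, Finset.mem_Icc] at hn
    exact (card_primeFactors_le_log (by omega)).trans (Nat.log_mono_right hn.1.2)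
  refine (Finset.sum_le_card_nsmul _ _ _ h3).trans ?_
  rw [smul_eq_mul, mul_comm]

theorem cover (N N' K y w A0 Q B T t : ℕ) (R : ℝ) (V S : Finset ℕ) (hK : 1 ≤ K) (hw : 1 ≤ w)
    (hA0 : 2 ≤ A0) (hQ : 1 ≤ Q) (hB : 1 ≤ B) (hAK : A0 * K ≤ N) (hBK : B * K ≤ N)
    (hN' : N * (1 + Nat.log 2 (A0 * (w * K) * (N / A0 + 1))) ≤ N')
    (hT1 : A0 * (w * K) * (N / A0 + 1) ≤ T) (hT2 : B * w ≤ T)
    (ht : ∀ m : ℕ, 1 ≤ m → m ≤ T → m.divisors.card ≤ t)
    (hR : ∀ v : ℕ, 1 ≤ v → v ≤ N → RR Q B (B * w) v ≤ R)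
    (hS : ∀ n ∈ S, 1 ≤ n ∧ n ≤ N ∧ φ n = φ (n + 1) ∧ φ n ∈ V ∧
      (∀ p : ℕ, p.Prime → p ∣ n * (n + 1) → p ≤ w) ∧ N ≤ K * sm y (U n)) :
    (S.card : ℝ) ≤ (t : ℝ) ^ 2 * R * (Nat.log 2 N' * (TTs N N' K y).card) +
      V.card * w * t * EE Q (B * w) (A0 * (w * K)) (N / A0 + 1) := by
  classical
  have hNT : N ≤ T := by
    refine le_trans ?_ hT1
    have h1 : N < A0 * (N / A0 + 1) := by
      have := Nat.lt_mul_div_succ N (by omega : 0 < A0)
      exact this
    have h2 : 1 ≤ w * K := Nat.mul_pos hw hK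
    calc N ≤ A0 * (N / A0 + 1) * 1 := by omega
      _ ≤ A0 * (N / A0 + 1) * (w * K) := Nat.mul_le_mul_left _ h2
      _ = A0 * (w * K) * (N / A0 + 1) := by ring
  have hN0 : 1 ≤ N := le_trans (Nat.mul_pos (by omega) hK) hAK
  have hR0 : 0 ≤ R := (RR_nonneg _ _ _ _).trans (hR 1 le_rfl hN0)
  -- the cover
  set F : ℕ × ℕ × ℕ → Finset ℕ := fun c =>
    ((AAs A0 w K c ×ˢ MMs N A0 K c).filter (fun z => ∃ b ∈ BB B (B * w) c.1, b ∣ z.1 * z.2 + 1)).image
      (fun z => z.1 * z.2) with hF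
  have hcover : S ⊆ (Cls N K y w V).biUnion F := by
    intro n hn
    obtain ⟨h1, h2, h3, h4, h5, h6⟩ := hS n hn
    have hφn : φ n = U n * KK n := totient_eq (by omega)
    have hφpos : 0 < φ n := Nat.totient_pos.2 h1
    have hφle : φ n ≤ n := Nat.totient_le n
    have hsmU : sm y (U n) ≤ U n := Nat.le_of_dvd (U_pos n) (sm_dvd (U_pos n).ne')
    have hUn : U n ≤ n := U_le (by omega)
    have hKpos : 0 < KK n := KK_pos (by omega)
    have hKK : KK n ≤ K := by
      have h7 : KK n * sm y (U n) ≤ K * sm y (U n) := by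
        calc KK n * sm y (U n) ≤ KK n * U n := Nat.mul_le_mul_left _ hsmU
          _ = φ n := by rw [hφn, mul_comm]
          _ ≤ N := hφle.trans h2
          _ ≤ K * sm y (U n) := h6
      exact Nat.le_of_mul_le_mul_right h7 (sm_pos _ _)
    have hNKn : N ≤ K * n := h6.trans (Nat.mul_le_mul_left _ (hsmU.trans hUn))
    have hA0n : A0 ≤ n := by
      have : K * A0 ≤ K * n := by
        rw [mul_comm K A0]
        exact hAK.trans hNKn
      exact Nat.le_of_mul_le_mul_left this hK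
    have hBn : B ≤ n + 1 := by
      have : K * B ≤ K * n := by
        rw [mul_comm K B]
        exact hBK.trans hNKn
      have := Nat.le_of_mul_le_mul_left this hK
      omega
    obtain ⟨P, a, m, hP, hPa, ham, haA, haB, hqa, hqm⟩ := exists_cut (w := w) (by omega : n ≠ 0)
      (fun p hp hpn => h5 p hp (hpn.mul_right _)) hA0 hA0n
    obtain ⟨b, hb1, hb2, hb3⟩ := exists_medium B w hB hw (n + 1)
      (fun p hp hpn => h5 p hp (hpn.mul_left _)) hBn
    have ha0 : a ≠ 0 := by rintro rfl; omega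
    have hm0 : m ≠ 0 := by rintro rfl; omega
    have hco := coprime_of hqa hqm
    have hKKam : KK a * KK m = KK n := by rw [← KK_mul ha0 hm0 hco, ham]
    have hKKa : KK a ≤ K := by
      refine le_trans ?_ hKK
      rw [← hKKam]
      exact Nat.le_mul_of_pos_right _ (KK_pos hm0)
    have hKKm : KK m ≤ K := by
      refine le_trans ?_ hKK
      rw [← hKKam]
      exact Nat.le_mul_of_pos_left _ (KK_pos ha0)
    have hPn : P ∣ n := by rw [← ham]; exact hPa.mul_right _
    have hPw : P ≤ w := h5 P hP (hPn.mul_right _)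
    have hPe : P ^ n.factorization P ≤ w * K := by
      have he : n.factorization P ≠ 0 := (hP.factorization_pos_of_dvd (by omega) hPn).ne'
      obtain ⟨e, he'⟩ := Nat.exists_eq_succ_of_ne_zero he
      rw [he', Nat.succ_eq_add_one, pow_succ, mul_comm]
      apply Nat.mul_le_mul hPw
      have h8 : P ^ (e + 1) ∣ n := by
        rw [← Nat.succ_eq_add_one, ← he']
        exact Nat.ordProj_dvd n P
      exact (Nat.le_of_dvd hKpos (pow_dvd_KK hP (by omega) h8)).trans hKK
    have hφam : φ a * φ m = φ n := by rw [← Nat.totient_mul hco, ham]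
    have hφa : 0 < φ a := Nat.totient_pos.2 (by omega)
    rw [Finset.mem_biUnion]
    refine ⟨(φ n, P, φ a), ?_, ?_⟩
    · unfold Cls
      rw [Finset.mem_filter, Finset.mem_product, Finset.mem_product]
      refine ⟨⟨h4, Finset.mem_Icc.2 ⟨hP.one_le, hPw⟩, Finset.mem_Icc.2 ⟨hφa, ?_⟩⟩, ?_, hP, hφpos,
        hφle.trans h2, ?_⟩
      · calc φ a ≤ φ a * φ m := Nat.le_mul_of_pos_right _ (Nat.totient_pos.2 (by omega))
          _ = φ n := hφam
          _ ≤ N := hφle.trans h2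
      · exact ⟨φ m, hφam.symm⟩
      · refine h6.trans (Nat.mul_le_mul_left _ ?_)
        simp only
        rw [hφn, sm_mul (U_pos n).ne' hKpos.ne']
        exact Nat.le_mul_of_pos_right _ (sm_pos _ _)
    · rw [hF, Finset.mem_image]
      refine ⟨(a, m), ?_, ham⟩
      rw [Finset.mem_filter, Finset.mem_product]
      refine ⟨⟨?_, ?_⟩, b, ?_, ?_⟩
      · rw [mem_AAs]
        refine ⟨haB.trans_le (Nat.mul_le_mul_left _ hPe), by omega, hPa, hqa, hKKa, rfl⟩
      · rw [mem_MMs]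
        refine ⟨?_, by omega, hqm, hKKm, ?_⟩
        · rw [Nat.lt_succ_iff, Nat.le_div_iff_mul_le (by omega)]
          calc m * A0 ≤ m * a := Nat.mul_le_mul_left _ haA
            _ = n := by rw [mul_comm, ham]
            _ ≤ N := h2
        · simp only
          rw [mul_comm, hφam]
      · unfold BB
        rw [Finset.mem_filter, Finset.mem_Icc]
        refine ⟨⟨by omega, hb3⟩, hb2, ?_⟩
        simp only
        rw [h3]
        exact Nat.totient_dvd_of_dvd hb1
      · simp only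
        rw [ham]
        exact hb1
  -- each class
  have hclass : ∀ c ∈ Cls N K y w V, ((F c).card : ℝ) ≤
      (t : ℝ) ^ 2 * R * ((AAs A0 w K c).card * (MMs N A0 K c).card) +
        EE Q (B * w) (A0 * (w * K)) (N / A0 + 1) := by
    intro c hc
    have hc' := hc
    unfold Cls at hc'
    rw [Finset.mem_filter] at hc'
    obtain ⟨-, -, -, hc1, hc2, -⟩ := hc'
    have h1 : (F c).card ≤ ∑ b ∈ BB B (B * w) c.1, TT b (AAs A0 w K c) (MMs N A0 K c) := by
      refine Finset.card_image_le.trans ?_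
      unfold TT
      refine le_trans (Finset.card_le_card ?_) Finset.card_biUnion_le
      intro z hz
      rw [Finset.mem_filter] at hz
      obtain ⟨hz1, b, hb, hbz⟩ := hz
      rw [Finset.mem_biUnion]
      exact ⟨b, hb, Finset.mem_filter.2 ⟨hz1, hbz⟩⟩
    have h2 : ((F c).card : ℝ) ≤ ∑ b ∈ BB B (B * w) c.1,
        (TT b (AAs A0 w K c) (MMs N A0 K c) : ℝ) := by exact_mod_cast h1
    refine h2.trans ((per_class Q B (B * w) c.1 t hQ (Nat.mul_pos hB hw) (AAs A0 w K c)
      (MMs N A0 K c) (A0 * (w * K)) (N / A0 + 1) (fun a ha => (mem_AAs.1 ha).1)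
      (fun m hm => (mem_MMs.1 hm).1) ?_ ?_).trans ?_)
    · intro b hb
      rw [Finset.mem_Icc] at hb
      exact ht b hb.1 (hb.2.trans hT2)
    · intro a ha m hm
      apply ht _ (by omega)
      have h3 := (mem_AAs.1 ha).1
      have h4 := (mem_MMs.1 hm).1
      have h5 := (mem_MMs.1 hm).2.1
      refine le_trans ?_ hT1
      have h6 : a * m < A0 * (w * K) * (N / A0 + 1) :=
        Nat.mul_lt_mul_of_lt_of_le h3 h4.le (by omega)
      omega
    · apply add_le_add _ le_rfl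
      have h3 := hR c.1 hc1 hc2
      have h4 : (0 : ℝ) ≤ ((AAs A0 w K c).card : ℝ) * (MMs N A0 K c).card := by positivity
      apply mul_le_mul_of_nonneg_right _ h4
      exact mul_le_mul_of_nonneg_left h3 (by positivity)
  have h1 : S.card ≤ ∑ c ∈ Cls N K y w V, (F c).card :=
    (Finset.card_le_card hcover).trans Finset.card_biUnion_le
  have h2 : (S.card : ℝ) ≤ ∑ c ∈ Cls N K y w V, ((F c).card : ℝ) := by exact_mod_cast h1
  refine h2.trans ((Finset.sum_le_sum hclass).trans ?_)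
  rw [Finset.sum_add_distrib, ← Finset.mul_sum, Finset.sum_const, nsmul_eq_mul]
  apply add_le_add
  · apply mul_le_mul_of_nonneg_left _ (by positivity)
    have h3 := sum_card_le (V := V) (y := y) hN'
    exact_mod_cast h3
  · have hEE : 0 ≤ EE Q (B * w) (A0 * (w * K)) (N / A0 + 1) := by
      unfold EE
      have hD : 1 ≤ B * w := Nat.mul_pos hB hw
      have hlog : 0 ≤ Real.log ((B * w : ℕ) : ℝ) := Real.log_nonneg (by exact_mod_cast hD)
      positivity
    apply mul_le_mul_of_nonneg_right _ hEE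
    have h3 := card_Cls (K := K) (y := y) (w := w) (V := V)
      (fun m h1 h2 => ht m h1 (h2.trans hNT))
    exact_mod_cast h3

end Pool.Agent.Helper69.LT
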