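import Pool.Agent.Helper69.LT.Asym

set_option autoImplicit false

/-!
# LT-10: the estimate of the sum over the cofactors
-/

open Finset
open scoped Nat

namespace Pool.Agent.Helper69.LT

open Pool.Agent.TN

/-- the double exponential factor is harmless -/
theorem XX_small {η : ℝ} (hη : 0 < η) (hη1 : η ≤ 1 / 4) : ∀ᶠ N : ℕ in Filter.atTop,
    ∀ v : ℕ, v ≠ 0 → v ≤ N →
      4 * XX ⌈Real.log N⌉₊ v ((1 - η) * (Real.log (Real.log (Real.log N)) /
        Real.log (Real.log N))) ≤ Real.log (Real.log N) / 2 := by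
  obtain ⟨C, hC, hW⟩ := W_le
  have ht : Filter.Tendsto (fun N : ℕ => (Real.log (Real.log (N : ℝ))) ^ η) Filter.atTop
      Filter.atTop := (tendsto_rpow_atTop hη).comp tl2
  -- `l3 = log l2 ≤ c l2^η`
  have h0 : ∀ᶠ N : ℕ in Filter.atTop, Real.log (Real.log (Real.log N)) ≤
      (1 / 64) * (Real.log (Real.log (N : ℝ))) ^ η := by
    have h1 := ht.eventually (log_le_mul' (c := η / 64) (by positivity))
    filter_upwards [h1, tl2.eventually_ge_atTop 1] with N h1 h2
    rw [Real.log_rpow (by linarith)] at h1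
    have h3 : η * Real.log (Real.log (Real.log N)) ≤
        η * ((1 / 64) * (Real.log (Real.log (N : ℝ))) ^ η) := by linarith
    exact le_of_mul_le_mul_left h3 hη
  filter_upwards [h0, ht.eventually_ge_atTop (64 * (C + 3)), tl3.eventually_ge_atTop 1,
    tl2.eventually_ge_atTop 1, tl1.eventually_ge_atTop 3,
    tl2.eventually (log_le_mul' (c := 1 / 2) (by norm_num))] with N h1 h2 h3 h4 h5 h6 v hv hvN
  obtain ⟨L, hL⟩ : ∃ L, L = Real.log (N : ℝ) := ⟨_, rfl⟩
  rw [← hL] at h1 h2 h3 h4 h5 h6 ⊢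
  obtain ⟨l, hl⟩ : ∃ l, l = Real.log L := ⟨_, rfl⟩
  rw [← hl] at h1 h2 h3 h4 h6 ⊢
  obtain ⟨s, hs⟩ : ∃ s, s = Real.log l := ⟨_, rfl⟩
  rw [← hs] at h1 h3 h6 ⊢
  have hl0 : 0 < l := by linarith
  have hL0 : 0 < L := by linarith
  set δ := (1 - η) * (s / l) with hδ
  have hδ0 : 0 ≤ δ := by
    rw [hδ]
    have : 0 ≤ s / l := div_nonneg (by linarith) hl0.le
    nlinarith
  have hδ1 : δ ≤ 1 := by
    rw [hδ]
    have h7 : s / l ≤ 1 / 2 := by
      rw [div_le_iff₀ hl0]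
      linarith
    have h8 : 0 ≤ s / l := div_nonneg (by linarith) hl0.le
    nlinarith
  have hLδ : L ^ δ = l ^ (1 - η) := by
    rw [Real.rpow_def_of_pos hL0, Real.rpow_def_of_pos hl0, ← hl, ← hs]
    congr 1
    rw [hδ]
    field_simp
  set y := ⌈L⌉₊ with hy
  have hy1 : L ≤ y := Nat.le_ceil _
  have hy2 : (y : ℝ) ≤ 2 * L := by
    have := Nat.ceil_lt_add_one hL0.le
    rw [← hy] at this
    linarith
  have hy3 : 3 ≤ y := by
    have : (3 : ℝ) ≤ y := by linarith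
    exact_mod_cast this
  have hy0 : (0 : ℝ) < y := by linarith
  have hWy : W y ≤ s + 1 + C := by
    have h7 := hW y hy3
    have h8 : Real.log y ≤ l + 1 := by
      have := Real.log_le_log hy0 hy2
      rw [Real.log_mul (by norm_num) hL0.ne', ← hl] at this
      have := Real.log_two_lt_d9
      linarith
    have h9 : Real.log (Real.log y) ≤ s + 1 := by
      have h10 : 0 < Real.log y := Real.log_pos (by linarith)
      have h11 := Real.log_le_log h10 h8
      have h12 : l + 1 ≤ 2 * l := by linarith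
      have h13 := Real.log_le_log (by linarith) h12
      rw [Real.log_mul (by norm_num) hl0.ne', ← hs] at h13
      have := Real.log_two_lt_d9
      linarith
    linarith
  have hW0 : 0 ≤ W y := by
    unfold W
    positivity
  have hyδ : (y : ℝ) ^ δ ≤ 2 * L ^ δ := by
    calc (y : ℝ) ^ δ ≤ (2 * L) ^ δ := Real.rpow_le_rpow hy0.le hy2 hδ0
      _ = 2 ^ δ * L ^ δ := Real.mul_rpow (by norm_num) hL0.le
      _ ≤ 2 * L ^ δ := by
        apply mul_le_mul_of_nonneg_right _ (by positivity)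
        calc (2 : ℝ) ^ δ ≤ 2 ^ (1 : ℝ) :=
              Real.rpow_le_rpow_of_exponent_le (by norm_num) hδ1
          _ = 2 := Real.rpow_one 2
  have hv1 : 1 ≤ v := Nat.one_le_iff_ne_zero.2 hv
  have hlogv : (Nat.log 2 v : ℝ) ≤ 2 * L := by
    rw [hL]
    exact natlog_le hv1 (by exact_mod_cast hvN)
  have hy4 : (y : ℝ) ^ (δ - 1) ≤ L ^ (δ - 1) :=
    Real.rpow_le_rpow_of_nonpos hL0 hy1 (by linarith)
  have hLd : L * L ^ (δ - 1) = L ^ δ := by
    rw [Real.rpow_sub_one hL0.ne']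
    field_simp
  have hXX : XX y v δ ≤ l ^ (1 - η) * (2 * (s + 1 + C) + 2) := by
    unfold XX
    have e1 : (y : ℝ) ^ δ * W y ≤ (2 * L ^ δ) * (s + 1 + C) :=
      mul_le_mul hyδ hWy hW0 (by positivity)
    have e2 : (Nat.log 2 v : ℝ) * (y : ℝ) ^ (δ - 1) ≤ (2 * L) * L ^ (δ - 1) :=
      mul_le_mul hlogv hy4 (by positivity) (by positivity)
    rw [← hLδ]
    calc (y : ℝ) ^ δ * W y + (Nat.log 2 v : ℝ) * (y : ℝ) ^ (δ - 1)
        ≤ (2 * L ^ δ) * (s + 1 + C) + (2 * L) * L ^ (δ - 1) := add_le_add e1 e2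
      _ = L ^ δ * (2 * (s + 1 + C)) + 2 * (L * L ^ (δ - 1)) := by ring
      _ = L ^ δ * (2 * (s + 1 + C) + 2) := by rw [hLd]; ring
  have hfin : 2 * (s + 1 + C) + 2 ≤ (1 / 16) * l ^ η := by
    have : 0 ≤ l ^ η := by positivity
    linarith
  have hll : l ^ (1 - η) * l ^ η = l := by
    rw [← Real.rpow_add hl0]
    simp
  calc 4 * XX y v δ ≤ 4 * (l ^ (1 - η) * (2 * (s + 1 + C) + 2)) := by linarith
    _ ≤ 4 * (l ^ (1 - η) * ((1 / 16) * l ^ η)) := by
      apply mul_le_mul_of_nonneg_left _ (by norm_num)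
      exact mul_le_mul_of_nonneg_left hfin (by positivity)
    _ = (1 / 4) * (l ^ (1 - η) * l ^ η) := by ring
    _ = (1 / 4) * l := by rw [hll]
    _ ≤ l / 2 := by linarith

/-- the sum over the cofactors -/
theorem RR_est {η : ℝ} (hη : 0 < η) (hη1 : η ≤ 1 / 100) : ∀ᶠ N : ℕ in Filter.atTop,
    ∀ Q B D v : ℕ, 1 ≤ Q → 1 ≤ B → 1 ≤ D → D ≤ N → v ≠ 0 → v ≤ N →
      (N : ℝ) ^ (1 / 2 - 22 * η) / 4 ≤ (B : ℝ) / Q →
      RR Q B D v ≤ Real.exp (-((1 / 2 - 30 * η) * EX N)) := by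
  filter_upwards [XX_small hη (by linarith), polylog 1 2 hη, sqrt_le_EX (4 / η),
    tl2.eventually (log_le_mul' (c := 1 / 2) (by norm_num)),
    tl3.eventually_ge_atTop 1, tl2.eventually_ge_atTop 1, tl1.eventually_ge_atTop 3,
    tl1.eventually_ge_atTop (2 / η), Filter.eventually_ge_atTop 1]
    with N h1 h2 h3 h4 h5 h6 h7 h8 hN Q B D v hQ hB hD hDN hv hvN hBQ
  have hN1 : (1 : ℝ) ≤ N := by exact_mod_cast hN
  have hN0 : (0 : ℝ) < N := by linarith
  have hX := h1 v hv hvN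
  have hE : EX N = Real.log N * Real.log (Real.log (Real.log N)) / Real.log (Real.log N) := rfl
  obtain ⟨L, hL⟩ : ∃ L, L = Real.log (N : ℝ) := ⟨_, rfl⟩
  rw [← hL] at h2 h3 h4 h5 h6 h7 h8 hX hE
  obtain ⟨l, hl⟩ : ∃ l, l = Real.log L := ⟨_, rfl⟩
  rw [← hl] at h4 h5 h6 hX hE
  obtain ⟨s, hs⟩ : ∃ s, s = Real.log l := ⟨_, rfl⟩
  rw [← hs] at h4 h5 hX hE
  have hl0 : 0 < l := by linarith
  have hL0 : 0 < L := by linarith
  have hsl : s / l ≤ 1 / 2 := by
    rw [div_le_iff₀ hl0]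
    linarith
  have hsl0 : 0 ≤ s / l := div_nonneg (by linarith) hl0.le
  obtain ⟨δ, hδ⟩ : ∃ δ, δ = (1 - η) * (s / l) := ⟨_, rfl⟩
  rw [← hδ] at hX
  have hδ0 : 0 ≤ δ := by
    rw [hδ]
    nlinarith
  have hδ1 : δ ≤ 1 / 2 := by
    rw [hδ]
    nlinarith
  have hδE : δ * L = (1 - η) * EX N := by
    rw [hδ, hE]
    field_simp
  have hy1 : 1 ≤ ⌈L⌉₊ := Nat.one_le_ceil_iff.2 hL0
  have hmain := RR_le δ hδ0 hδ1 ⌈L⌉₊ hy1 Q B D v hQ hB hv
  have hE0 : 0 ≤ EX N := by
    rw [hE]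
    apply div_nonneg _ hl0.le
    apply mul_nonneg hL0.le
    linarith
  -- the three factors
  have f1 : (1 + (Nat.log 2 D : ℝ)) ≤ Real.exp (η * EX N) := by
    refine le_trans ?_ h2
    have : (Nat.log 2 D : ℝ) ≤ 2 * L := by
      rw [hL]
      exact natlog_le hD (by exact_mod_cast hDN)
    rw [pow_one]
    linarith
  have f2 : ((B : ℝ) / Q) ^ (-δ) ≤ Real.exp (-((1 / 2 - 24 * η) * EX N)) := by
    have g1 : Real.exp ((1 / 2 - 23 * η) * L) ≤ (B : ℝ) / Q := by
      refine le_trans ?_ hBQ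
      have g2 : (N : ℝ) ^ (1 / 2 - 22 * η) = Real.exp ((1 / 2 - 23 * η) * L) *
          Real.exp (η * L) := by
        rw [← Real.exp_add, Real.rpow_def_of_pos hN0, ← hL]
        congr 1
        ring
      have g3 : 4 ≤ Real.exp (η * L) := by
        have g4 : 2 ≤ η * L := by
          have := mul_le_mul_of_nonneg_left h8 hη.le
          have e : η * (2 / η) = 2 := by field_simp
          linarith
        have g5 := Real.add_one_le_exp (η * L)
        have g6 : Real.exp 2 ≤ Real.exp (η * L) := Real.exp_le_exp.2 g4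
        have g7 : (4 : ℝ) ≤ Real.exp 2 := by
          have h9 : Real.exp 2 = Real.exp 1 * Real.exp 1 := by
            rw [← Real.exp_add]; norm_num
          have h10 := Real.exp_one_gt_d9
          rw [h9]
          nlinarith
        linarith
      rw [g2, le_div_iff₀ (by norm_num)]
      exact mul_le_mul_of_nonneg_left g3 (Real.exp_pos _).le
    have g2 : ((B : ℝ) / Q) ^ (-δ) ≤ (Real.exp ((1 / 2 - 23 * η) * L)) ^ (-δ) :=
      Real.rpow_le_rpow_of_nonpos (Real.exp_pos _) g1 (by linarith)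
    refine g2.trans ?_
    rw [← Real.exp_mul]
    apply Real.exp_le_exp.2
    have e : (1 / 2 - 23 * η) * L * -δ = -((1 / 2 - 23 * η) * ((1 - η) * EX N)) := by
      rw [← hδE]
      ring
    rw [e]
    apply neg_le_neg
    have e2 : (1 / 2 - 24 * η) ≤ (1 / 2 - 23 * η) * (1 - η) := by nlinarith
    have := mul_le_mul_of_nonneg_right e2 hE0
    linarith
  have f3 : Real.exp (4 * Real.exp (4 * XX ⌈L⌉₊ v δ)) ≤ Real.exp (η * EX N) := by
    apply Real.exp_le_exp.2
    have g1 : Real.exp (4 * XX ⌈L⌉₊ v δ) ≤ Real.sqrt L := by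
      have g2 : Real.exp (l / 2) = Real.sqrt L := by
        rw [show l / 2 = Real.log (Real.sqrt L) by rw [Real.log_sqrt hL0.le, hl]]
        exact Real.exp_log (Real.sqrt_pos.2 hL0)
      rw [← g2]
      exact Real.exp_le_exp.2 hX
    calc 4 * Real.exp (4 * XX ⌈L⌉₊ v δ) ≤ 4 * Real.sqrt L := by linarith
      _ = η * (4 / η * Real.sqrt L) := by field_simp
      _ ≤ η * EX N := mul_le_mul_of_nonneg_left h3 hη.le
  refine hmain.trans ?_
  calc (1 + (Nat.log 2 D : ℝ)) * ((B : ℝ) / Q) ^ (-δ) * Real.exp (4 * Real.exp (4 * XX ⌈L⌉₊ v δ))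
      ≤ Real.exp (η * EX N) * Real.exp (-((1 / 2 - 24 * η) * EX N)) * Real.exp (η * EX N) := by
        apply mul_le_mul _ f3 (Real.exp_pos _).le (by positivity)
        exact mul_le_mul f1 f2 (by positivity) (Real.exp_pos _).le
    _ = Real.exp (-((1 / 2 - 26 * η) * EX N)) := by
        rw [← Real.exp_add, ← Real.exp_add]
        congr 1
        ring
    _ ≤ Real.exp (-((1 / 2 - 30 * η) * EX N)) := by
        apply Real.exp_le_exp.2
        apply neg_le_neg
        have : (1 / 2 - 30 * η) ≤ (1 / 2 - 26 * η) := by linarith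
        exact mul_le_mul_of_nonneg_right this hE0

end Pool.Agent.Helper69.LT
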