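import Pool.Agent.Helper69.LT.Count
import Pool.Agent.Helper34.ER.LS
import Pool.Agent.Helper9.TN.Basic

set_option autoImplicit false

/-!
# LT-3: the large conductors, by the multiplicative large sieve
-/

open Finset
open scoped Nat

namespace Pool.Agent.Helper69.LT

open Pool.Agent.Helper6.ER

/-- the character sums for the modulus `f` with the variables coprime to `c` -/
noncomputable def gg (f c : ℕ) (A M : Finset ℕ) : ℝ :=
  ∑ ψ ∈ prim f, ‖∑ a ∈ cop c A, ψ (a : ZMod f)‖ * ‖∑ m ∈ cop c M, ψ (m : ZMod f)‖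

lemma gg_nonneg (f c : ℕ) (A M : Finset ℕ) : 0 ≤ gg f c A M :=
  Finset.sum_nonneg fun _ _ => by positivity

lemma sum_cop_eq {f c : ℕ} (ψ : DirichletCharacter ℂ f) (A : Finset ℕ) :
    ∑ a ∈ cop (f * c) A, ψ (a : ZMod f) = ∑ a ∈ cop c A, ψ (a : ZMod f) := by
  classical
  unfold cop
  rw [Finset.sum_filter, Finset.sum_filter]
  refine Finset.sum_congr rfl fun a _ => ?_
  by_cases h1 : Nat.Coprime a f
  · by_cases h2 : Nat.Coprime a c
    · rw [if_pos h2, if_pos (Nat.Coprime.mul_right h1 h2)]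
    · rw [if_neg h2, if_neg (fun h => h2 (Nat.Coprime.coprime_mul_left_right h))]
  · have h3 : ψ (a : ZMod f) = 0 := by
      have h4 : ¬ IsCoprime (a : ℤ) (f : ℤ) := fun h' => h1 (Nat.isCoprime_iff_coprime.1 h')
      have h5 := (DirichletCharacter.apply_eq_zero_iff ψ (a : ℤ)).2 h4
      simpa using h5
    rw [h3]
    simp

/-- a block of conductors -/
lemma block (j c : ℕ) (A M : Finset ℕ) (u1 u2 : ℕ) (hA : ∀ a ∈ A, a < u1) (hM : ∀ m ∈ M, m < u2)
    (S : Finset ℕ) (hS : ∀ f ∈ S, 2 ^ j ≤ f ∧ f < 2 ^ (j + 1)) :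
    ∑ f ∈ S, gg f c A M / φ f ≤
      5 * (((u1 : ℝ) + u2) / 2 ^ (j + 1) + 4 * 2 ^ j) * Real.sqrt (A.card * M.card) := by
  classical
  set F := 2 ^ (j + 1) with hF
  have hF1 : 1 ≤ F := Nat.one_le_two_pow
  set U1 := u1 + F ^ 2 with hU1
  set U2 := u2 + F ^ 2 with hU2
  have l1 := mult_large_sieve F U1 hF1 (Nat.le_add_left _ _) (cop c A)
    (fun k hk => (hA k (Finset.mem_filter.1 hk).1).trans_le (Nat.le_add_right _ _)) (fun _ => 1)
  have l2 := mult_large_sieve F U2 hF1 (Nat.le_add_left _ _) (cop c M)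
    (fun k hk => (hM k (Finset.mem_filter.1 hk).1).trans_le (Nat.le_add_right _ _)) (fun _ => 1)
  simp only [one_mul, norm_one, one_pow, Finset.sum_const, nsmul_eq_mul, mul_one] at l1 l2
  have hcA : ((cop c A).card : ℝ) ≤ A.card := by
    exact_mod_cast Finset.card_le_card (Finset.filter_subset _ _)
  have hcM : ((cop c M).card : ℝ) ≤ M.card := by
    exact_mod_cast Finset.card_le_card (Finset.filter_subset _ _)
  set T : Finset ((f : ℕ) × DirichletCharacter ℂ f) := (Icc 1 F).sigma prim with hT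
  set x : ((f : ℕ) × DirichletCharacter ℂ f) → ℝ := fun t =>
    Real.sqrt ((t.1 : ℝ) / φ t.1) * ‖∑ a ∈ cop c A, t.2 (a : ZMod t.1)‖ with hx
  set y : ((f : ℕ) × DirichletCharacter ℂ f) → ℝ := fun t =>
    Real.sqrt ((t.1 : ℝ) / φ t.1) * ‖∑ a ∈ cop c M, t.2 (a : ZMod t.1)‖ with hy
  have hxsq : ∑ t ∈ T, x t ^ 2 ≤ 5 * U1 * A.card := by
    rw [hT, Finset.sum_sigma]
    refine le_trans (le_of_eq ?_) (l1.trans ?_)
    · refine Finset.sum_congr rfl fun f _ => ?_
      rw [Finset.mul_sum]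
      refine Finset.sum_congr rfl fun ψ _ => ?_
      simp only [hx]
      rw [mul_pow, Real.sq_sqrt (by positivity)]
    · exact mul_le_mul_of_nonneg_left hcA (by positivity)
  have hysq : ∑ t ∈ T, y t ^ 2 ≤ 5 * U2 * M.card := by
    rw [hT, Finset.sum_sigma]
    refine le_trans (le_of_eq ?_) (l2.trans ?_)
    · refine Finset.sum_congr rfl fun f _ => ?_
      rw [Finset.mul_sum]
      refine Finset.sum_congr rfl fun ψ _ => ?_
      simp only [hy]
      rw [mul_pow, Real.sq_sqrt (by positivity)]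
    · exact mul_le_mul_of_nonneg_left hcM (by positivity)
  have hCS : ∑ t ∈ T, x t * y t ≤ Real.sqrt (5 * U1 * A.card) * Real.sqrt (5 * U2 * M.card) :=
    (Real.sum_mul_le_sqrt_mul_sqrt T x y).trans
      (mul_le_mul (Real.sqrt_le_sqrt hxsq) (Real.sqrt_le_sqrt hysq) (Real.sqrt_nonneg _)
        (Real.sqrt_nonneg _))
  have hsum : ∑ f ∈ S, gg f c A M / φ f ≤ (1 / 2 ^ j) * ∑ t ∈ T, x t * y t := by
    rw [hT, Finset.sum_sigma, Finset.mul_sum]
    have hSsub : S ⊆ Icc 1 F := by
      intro f hf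
      have := hS f hf
      rw [Finset.mem_Icc]
      exact ⟨Nat.one_le_two_pow.trans this.1, this.2.le⟩
    refine le_trans ?_ (Finset.sum_le_sum_of_subset_of_nonneg hSsub (fun f _ _ => by positivity))
    refine Finset.sum_le_sum fun f hf => ?_
    obtain ⟨h1, h2⟩ := hS f hf
    have hf0 : 0 < f := lt_of_lt_of_le (Nat.two_pow_pos j) h1
    have hφ : (0 : ℝ) < φ f := by exact_mod_cast Nat.totient_pos.2 hf0
    have hfR : (2 : ℝ) ^ j ≤ f := by exact_mod_cast h1
    have hfR0 : (0 : ℝ) < f := by exact_mod_cast hf0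
    unfold gg
    rw [Finset.sum_div, Finset.mul_sum]
    refine Finset.sum_le_sum fun ψ _ => ?_
    simp only [hx, hy]
    set p := ‖∑ a ∈ cop c A, ψ (a : ZMod f)‖
    set q := ‖∑ a ∈ cop c M, ψ (a : ZMod f)‖
    have e : Real.sqrt ((f : ℝ) / φ f) * p * (Real.sqrt ((f : ℝ) / φ f) * q) =
        (f : ℝ) / φ f * (p * q) := by
      have := Real.mul_self_sqrt (show (0 : ℝ) ≤ (f : ℝ) / φ f by positivity)
      calc _ = (Real.sqrt ((f : ℝ) / φ f) * Real.sqrt ((f : ℝ) / φ f)) * (p * q) := by ring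
        _ = _ := by rw [this]
    rw [e]
    have hpq : 0 ≤ p * q := by positivity
    calc p * q / φ f = 1 * (p * q / φ f) := (one_mul _).symm
      _ ≤ ((f : ℝ) / 2 ^ j) * (p * q / φ f) := by
          apply mul_le_mul_of_nonneg_right _ (by positivity)
          rw [le_div_iff₀ (by positivity), one_mul]
          exact hfR
      _ = 1 / 2 ^ j * ((f : ℝ) / φ f * (p * q)) := by ring
  have hsq : Real.sqrt (5 * U1 * A.card) * Real.sqrt (5 * U2 * M.card) ≤
      5 * (((u1 : ℝ) + u2) / 2 + F ^ 2) * Real.sqrt (A.card * M.card) := by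
    have e1 : Real.sqrt (5 * U1 * A.card) * Real.sqrt (5 * U2 * M.card) =
        5 * Real.sqrt ((U1 : ℝ) * U2) * Real.sqrt (A.card * M.card) := by
      have e2 : (5 * (U1 : ℝ) * A.card) * (5 * U2 * M.card) =
          5 ^ 2 * (((U1 : ℝ) * U2) * (A.card * M.card)) := by ring
      rw [← Real.sqrt_mul (by positivity) (5 * (U2 : ℝ) * M.card), e2,
        Real.sqrt_mul (by positivity) (((U1 : ℝ) * U2) * (A.card * M.card)),
        Real.sqrt_sq (by norm_num), Real.sqrt_mul (by positivity) ((A.card : ℝ) * M.card)]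
      ring
    rw [e1]
    apply mul_le_mul_of_nonneg_right _ (Real.sqrt_nonneg _)
    apply mul_le_mul_of_nonneg_left _ (by norm_num)
    have h1 : Real.sqrt ((U1 : ℝ) * U2) ≤ ((U1 : ℝ) + U2) / 2 := by
      apply Real.sqrt_le_iff.2
      constructor
      · positivity
      · nlinarith [sq_nonneg ((U1 : ℝ) - U2)]
    refine h1.trans (le_of_eq ?_)
    rw [hU1, hU2]
    push_cast
    ring
  calc ∑ f ∈ S, gg f c A M / φ f ≤ (1 / 2 ^ j) * ∑ t ∈ T, x t * y t := hsum
    _ ≤ (1 / 2 ^ j) * (5 * (((u1 : ℝ) + u2) / 2 + F ^ 2) * Real.sqrt (A.card * M.card)) :=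
        mul_le_mul_of_nonneg_left (hCS.trans hsq) (by positivity)
    _ = 5 * (((u1 : ℝ) + u2) / 2 ^ (j + 1) + 4 * 2 ^ j) * Real.sqrt (A.card * M.card) := by
        rw [hF]
        push_cast
        rw [pow_succ]
        field_simp
        ring

/-- all conductors in `(Q, D]`, for one cofactor `c` -/
lemma blocks (Q D c : ℕ) (hQ : 1 ≤ Q) (A M : Finset ℕ) (u1 u2 : ℕ)
    (hA : ∀ a ∈ A, a < u1) (hM : ∀ m ∈ M, m < u2) :
    ∑ f ∈ (Icc 1 D).filter (fun f => Q < f), gg f c A M / φ f ≤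
      (Nat.log 2 D + 1) * (5 * (((u1 : ℝ) + u2) / Q + 4 * D) * Real.sqrt (A.card * M.card)) := by
  classical
  have hmaps : ∀ f ∈ (Icc 1 D).filter (fun f => Q < f), Nat.log 2 f ∈ range (Nat.log 2 D + 1) := by
    intro f hf
    rw [Finset.mem_filter, Finset.mem_Icc] at hf
    rw [Finset.mem_range, Nat.lt_succ_iff]
    exact Nat.log_mono_right hf.1.2
  rw [← Finset.sum_fiberwise_of_maps_to hmaps]
  have hcard : ((Nat.log 2 D + 1 : ℕ) : ℝ) = (Nat.log 2 D + 1 : ℝ) := by push_cast; ring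
  have hQR : (0 : ℝ) < Q := by exact_mod_cast hQ
  have hsq := Real.sqrt_nonneg ((A.card : ℝ) * M.card)
  calc ∑ j ∈ range (Nat.log 2 D + 1), ∑ f ∈ ((Icc 1 D).filter (fun f => Q < f)).filter
          (fun f => Nat.log 2 f = j), gg f c A M / φ f
      ≤ ∑ j ∈ range (Nat.log 2 D + 1), 5 * (((u1 : ℝ) + u2) / Q + 4 * D) *
          Real.sqrt (A.card * M.card) := by
        refine Finset.sum_le_sum fun j hj => ?_
        rcases (((Icc 1 D).filter (fun f => Q < f)).filter
          (fun f => Nat.log 2 f = j)).eq_empty_or_nonempty with h0 | ⟨f0, hf0⟩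
        · rw [h0, Finset.sum_empty]
          positivity
        · have hb : ∀ f ∈ ((Icc 1 D).filter (fun f => Q < f)).filter
              (fun f => Nat.log 2 f = j), 2 ^ j ≤ f ∧ f < 2 ^ (j + 1) := by
            intro f hf
            rw [Finset.mem_filter, Finset.mem_filter, Finset.mem_Icc] at hf
            obtain ⟨⟨⟨h1, h2⟩, h3⟩, h4⟩ := hf
            have := (Nat.log_eq_iff (b := 2) (m := j) (n := f)
              (Or.inr ⟨by norm_num, by omega⟩)).1 h4
            exact this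
          refine (block j c A M u1 u2 hA hM _ hb).trans ?_
          have hf1 := hb f0 hf0
          rw [Finset.mem_filter, Finset.mem_filter, Finset.mem_Icc] at hf0
          apply mul_le_mul_of_nonneg_right _ hsq
          apply mul_le_mul_of_nonneg_left _ (by norm_num)
          have h1 : (Q : ℝ) ≤ 2 ^ (j + 1) := by
            have : Q ≤ 2 ^ (j + 1) := by omega
            exact_mod_cast this
          have h2 : (2 : ℝ) ^ j ≤ D := by
            have : 2 ^ j ≤ D := by omega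
            exact_mod_cast this
          have h3 : ((u1 : ℝ) + u2) / 2 ^ (j + 1) ≤ ((u1 : ℝ) + u2) / Q :=
            div_le_div_of_nonneg_left (by positivity) hQR h1
          linarith
    _ = _ := by
        rw [Finset.sum_const, Finset.card_range, nsmul_eq_mul, hcard]

lemma sum_inv_totient (D : ℕ) (hD : 1 ≤ D) :
    ∑ c ∈ Icc 1 D, (1 : ℝ) / φ c ≤ (1 + Nat.log 2 D) * (1 + Real.log D) := by
  have h1 : ∀ c ∈ Icc 1 D, (1 : ℝ) / φ c ≤ (1 + Nat.log 2 D) * (1 / c) := by
    intro c hc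
    rw [Finset.mem_Icc] at hc
    have h2 := Pool.Agent.TN.le_totient_mul (n := c) (by omega)
    have hφ : (0 : ℝ) < φ c := by exact_mod_cast Nat.totient_pos.2 (by omega : 0 < c)
    have hc0 : (0 : ℝ) < c := by exact_mod_cast (by omega : 0 < c)
    have h3 : (c : ℝ) ≤ φ c * (1 + Nat.log 2 c) := by exact_mod_cast h2
    have h4 : (Nat.log 2 c : ℝ) ≤ Nat.log 2 D := by
      exact_mod_cast Nat.log_mono_right hc.2
    rw [mul_one_div, div_le_div_iff₀ hφ hc0]
    nlinarith
  calc ∑ c ∈ Icc 1 D, (1 : ℝ) / φ c ≤ ∑ c ∈ Icc 1 D, (1 + Nat.log 2 D) * (1 / (c : ℝ)) :=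
        Finset.sum_le_sum h1
    _ = (1 + Nat.log 2 D) * ∑ c ∈ Icc 1 D, (1 / (c : ℝ)) := by rw [Finset.mul_sum]
    _ ≤ (1 + Nat.log 2 D) * (1 + Real.log D) := by
        apply mul_le_mul_of_nonneg_left _ (by positivity)
        have := harmonic_le_one_add_log D
        rw [harmonic_eq_sum_Icc] at this
        push_cast at this
        simpa [one_div] using this

/-- **The large conductors.** -/
theorem large (Q D : ℕ) (hQ : 1 ≤ Q) (hD : 1 ≤ D) (A M : Finset ℕ) (u1 u2 : ℕ)
    (hA : ∀ a ∈ A, a < u1) (hM : ∀ m ∈ M, m < u2) :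
    ∑ b ∈ Icc 1 D, LP Q b A M / φ b ≤
      ((1 + Nat.log 2 D) * (1 + Real.log D)) *
      ((Nat.log 2 D + 1) * (5 * (((u1 : ℝ) + u2) / Q + 4 * D) * Real.sqrt (A.card * M.card))) := by
  classical
  -- rewrite the sum over b as a sum over pairs
  have h1 : ∀ b ∈ Icc 1 D, LP Q b A M / φ b ≤
      ∑ c ∈ Icc 1 D, ∑ f ∈ (Icc 1 D).filter (fun f => Q < f),
        if f * c = b then (1 / (φ c : ℝ)) * (gg f c A M / φ f) else 0 := by
    intro b hb
    rw [Finset.mem_Icc] at hb
    unfold LP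
    rw [Finset.sum_div]
    have h2 : ∀ f ∈ b.divisors.filter (fun f => Q < f),
        (∑ ψ ∈ prim f, ‖∑ a ∈ cop b A, ψ (a : ZMod f)‖ * ‖∑ m ∈ cop b M, ψ (m : ZMod f)‖) / φ b ≤
        (1 / (φ (b / f) : ℝ)) * (gg f (b / f) A M / φ f) := by
      intro f hf
      rw [Finset.mem_filter] at hf
      have hfb := Nat.dvd_of_mem_divisors hf.1
      have hbf : f * (b / f) = b := Nat.mul_div_cancel' hfb
      have hf0 : 0 < f := Nat.pos_of_mem_divisors hf.1
      have hc0 : 0 < b / f := Nat.div_pos (Nat.le_of_dvd (by omega) hfb) hf0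
      have e : (∑ ψ ∈ prim f, ‖∑ a ∈ cop b A, ψ (a : ZMod f)‖ *
          ‖∑ m ∈ cop b M, ψ (m : ZMod f)‖) = gg f (b / f) A M := by
        unfold gg
        refine Finset.sum_congr rfl fun ψ _ => ?_
        rw [← sum_cop_eq (c := b / f) ψ A, ← sum_cop_eq (c := b / f) ψ M, hbf]
      rw [e]
      have hφ := Nat.totient_super_multiplicative f (b / f)
      rw [hbf] at hφ
      have h3 : ((φ f : ℝ) * φ (b / f)) ≤ φ b := by exact_mod_cast hφ
      have h4 : (0 : ℝ) < φ f := by exact_mod_cast Nat.totient_pos.2 hf0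
      have h5 : (0 : ℝ) < φ (b / f) := by exact_mod_cast Nat.totient_pos.2 hc0
      have h6 := gg_nonneg f (b / f) A M
      calc gg f (b / f) A M / φ b ≤ gg f (b / f) A M / ((φ f : ℝ) * φ (b / f)) :=
            div_le_div_of_nonneg_left h6 (by positivity) h3
        _ = _ := by
            field_simp
    refine (Finset.sum_le_sum h2).trans ?_
    rw [Finset.sum_comm]
    have h7 : ∀ f ∈ b.divisors.filter (fun f => Q < f), (1 / (φ (b / f) : ℝ)) *
        (gg f (b / f) A M / φ f) ≤ ∑ c ∈ Icc 1 D,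
        if f * c = b then (1 / (φ c : ℝ)) * (gg f c A M / φ f) else 0 := by
      intro f hf
      rw [Finset.mem_filter] at hf
      have hfb := Nat.dvd_of_mem_divisors hf.1
      have hbf : f * (b / f) = b := Nat.mul_div_cancel' hfb
      have hf0 : 0 < f := Nat.pos_of_mem_divisors hf.1
      have hc0 : 0 < b / f := Nat.div_pos (Nat.le_of_dvd (by omega) hfb) hf0
      have hcD : b / f ≤ D := (Nat.div_le_self _ _).trans hb.2
      have hmem : b / f ∈ Icc 1 D := Finset.mem_Icc.2 ⟨hc0, hcD⟩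
      refine le_trans (le_of_eq ?_) (Finset.single_le_sum (fun c _ => ?_) hmem)
      · rw [if_pos hbf]
      · split_ifs
        · have := gg_nonneg f c A M
          positivity
        · exact le_rfl
    refine (Finset.sum_le_sum h7).trans ?_
    apply Finset.sum_le_sum_of_subset_of_nonneg
    · intro f hf
      rw [Finset.mem_filter] at hf ⊢
      have hfb := Nat.dvd_of_mem_divisors hf.1
      exact ⟨Finset.mem_Icc.2 ⟨Nat.pos_of_mem_divisors hf.1,
        (Nat.le_of_dvd (by omega) hfb).trans hb.2⟩, hf.2⟩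
    · intro f _ _
      refine Finset.sum_nonneg fun c _ => ?_
      split_ifs
      · have := gg_nonneg f c A M
        positivity
      · exact le_rfl
  have h8 : ∑ b ∈ Icc 1 D, LP Q b A M / φ b ≤
      ∑ c ∈ Icc 1 D, ∑ f ∈ (Icc 1 D).filter (fun f => Q < f),
        (1 / (φ c : ℝ)) * (gg f c A M / φ f) := by
    refine (Finset.sum_le_sum h1).trans ?_
    rw [Finset.sum_comm]
    refine Finset.sum_le_sum fun c _ => ?_
    rw [Finset.sum_comm]
    refine Finset.sum_le_sum fun f _ => ?_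
    have hnn : 0 ≤ (1 / (φ c : ℝ)) * (gg f c A M / φ f) := by
      have := gg_nonneg f c A M
      positivity
    rw [Finset.sum_ite_eq]
    split_ifs
    · exact le_rfl
    · exact hnn
  refine h8.trans ?_
  have h9 : ∀ c ∈ Icc 1 D, ∑ f ∈ (Icc 1 D).filter (fun f => Q < f),
        (1 / (φ c : ℝ)) * (gg f c A M / φ f) ≤ (1 / (φ c : ℝ)) *
        ((Nat.log 2 D + 1) * (5 * (((u1 : ℝ) + u2) / Q + 4 * D) *
          Real.sqrt (A.card * M.card))) := by
    intro c _
    rw [← Finset.mul_sum]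
    exact mul_le_mul_of_nonneg_left (blocks Q D c hQ A M u1 u2 hA hM) (by positivity)
  refine (Finset.sum_le_sum h9).trans ?_
  rw [← Finset.sum_mul]
  apply mul_le_mul_of_nonneg_right (sum_inv_totient D hD)
  positivity

end Pool.Agent.Helper69.LT
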