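import Pool.Agent.Helper69.LT.Params
import Pool.Agent.Helper9.TN.Main
import Pool.Agent.Helper99.CV.Main

set_option autoImplicit false

/-!
# LT-12: the main theorem
-/

open Finset
open scoped Nat

namespace Pool.Agent.Helper69.LT

open Pool.Agent.TN

lemma EX_nonneg' : ∀ᶠ N : ℕ in Filter.atTop, 0 ≤ EX N := by
  filter_upwards [tl3.eventually_ge_atTop 1, tl2.eventually_ge_atTop 1,
    tl1.eventually_ge_atTop 1] with N h1 h2 h3
  unfold EX
  apply div_nonneg _ (by linarith)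
  apply mul_nonneg <;> linarith

/-- the exceptional set of the products -/
theorem TT_est {η : ℝ} (hη : 0 < η) (hη1 : η ≤ 1 / 100) : ∀ᶠ N : ℕ in Filter.atTop,
    ∀ K y : ℕ, (K : ℝ) ≤ 2 * (N : ℝ) ^ (2 * η) → 3 ≤ y → (y : ℝ) ≤ 2 * (Real.log N) ^ (1 + η) →
      ((TTs N (N * (1 + Nat.log 2 (N ^ 2))) K y).card : ℝ) ≤
        N * Real.exp (-((1 - 26 * η) * EX N)) := by
  obtain ⟨N₀, hN₀⟩ := Filter.eventually_atTop.1
    (exc_count (ε := 4 * η) (by linarith) (by linarith))
  have hl : ∀ᶠ N : ℕ in Filter.atTop, 2 ≤ (Real.log N) ^ (7 * η) :=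
    ((tendsto_rpow_atTop (by linarith : (0 : ℝ) < 7 * η)).comp tl1).eventually_ge_atTop 2
  have h8 : ∀ᶠ N : ℕ in Filter.atTop, 8 ≤ (N : ℝ) ^ η :=
    ((tendsto_rpow_atTop hη).comp tendsto_natCast_atTop_atTop).eventually_ge_atTop 8
  filter_upwards [EX_nonneg', EX_le (η := 1) one_pos, polylog 1 4 hη, hl, h8,
    tl3.eventually_ge_atTop 1, tl2.eventually_ge_atTop 1, tl1.eventually_ge_atTop 1,
    Filter.eventually_ge_atTop N₀, Filter.eventually_ge_atTop 1]
    with N e0 e1 e2 e3 e4 e5 e6 e7 hN hN' K y hK hy hy2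
  have hN1 : (1 : ℝ) ≤ N := by exact_mod_cast hN'
  have hN0 : (0 : ℝ) < N := by linarith
  have hexp : ∀ a b : ℝ, a ≤ b → (N : ℝ) ^ a ≤ (N : ℝ) ^ b := fun a b h =>
    Real.rpow_le_rpow_of_exponent_le hN1 h
  have hadd : ∀ a b : ℝ, (N : ℝ) ^ a * (N : ℝ) ^ b = (N : ℝ) ^ (a + b) := fun a b =>
    (Real.rpow_add hN0 a b).symm
  set N' := N * (1 + Nat.log 2 (N ^ 2)) with hN'd
  have hNN' : N ≤ N' := Nat.le_mul_of_pos_right _ (by omega)
  have hNN'R : (N : ℝ) ≤ N' := by exact_mod_cast hNN'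
  have hlog2 : (Nat.log 2 (N ^ 2) : ℝ) ≤ 4 * Real.log N := by
    have := natlog_le (n := N ^ 2) (X := (N : ℝ) ^ 2) (Nat.one_le_pow _ _ hN') (by push_cast; rfl)
    rw [Real.log_pow] at this
    push_cast at this
    linarith
  have hN'le : (N' : ℝ) ≤ N * Real.exp (η * EX N) := by
    rw [hN'd]
    push_cast
    apply mul_le_mul_of_nonneg_left _ hN0.le
    refine le_trans ?_ e2
    rw [pow_one]
    linarith
  have hL0 : 0 < Real.log (N : ℝ) := by linarith
  have hlogN' : Real.log N' ≤ (1 + η) * Real.log N := by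
    have := Real.log_le_log (by linarith) hN'le
    rw [Real.log_mul hN0.ne' (Real.exp_pos _).ne', Real.log_exp] at this
    have h9 : η * EX N ≤ η * Real.log N := mul_le_mul_of_nonneg_left (by linarith) hη.le
    linarith
  have hlogN'2 : Real.log N ≤ Real.log N' := Real.log_le_log hN0 hNN'R
  have hy3 : (y : ℝ) ≤ (Real.log N') ^ (1 + 2 * (4 * η)) := by
    refine hy2.trans ?_
    calc 2 * (Real.log N) ^ (1 + η) ≤ (Real.log N) ^ (7 * η) * (Real.log N) ^ (1 + η) :=
          mul_le_mul_of_nonneg_right e3 (by positivity)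
      _ = (Real.log N) ^ (1 + 2 * (4 * η)) := by
          rw [← Real.rpow_add hL0]; congr 1; ring
      _ ≤ (Real.log N') ^ (1 + 2 * (4 * η)) :=
          Real.rpow_le_rpow hL0.le hlogN'2 (by linarith)
  have hN'pow : (N' : ℝ) ^ (1 - 2 * (4 * η)) ≤ (N : ℝ) ^ (1 - 7 * η) := by
    have g1 : (N' : ℝ) ≤ (N : ℝ) ^ (1 + η) := by
      rw [← Real.log_le_log_iff (by linarith) (by positivity), Real.log_rpow hN0]
      exact hlogN'
    calc (N' : ℝ) ^ (1 - 2 * (4 * η)) ≤ ((N : ℝ) ^ (1 + η)) ^ (1 - 2 * (4 * η)) :=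
          Real.rpow_le_rpow (by linarith) g1 (by linarith)
      _ = (N : ℝ) ^ ((1 + η) * (1 - 2 * (4 * η))) := (Real.rpow_mul hN0.le _ _).symm
      _ ≤ (N : ℝ) ^ (1 - 7 * η) := hexp _ _ (by nlinarith)
  have hS : ∀ n ∈ TTs N N' K y, 1 ≤ n ∧ n ≤ N' ∧
      (N' : ℝ) ^ (1 - 2 * (4 * η)) ≤ (sm y (U n) : ℝ) := by
    intro n hn
    unfold TTs at hn
    rw [Finset.mem_filter, Finset.mem_Icc] at hn
    refine ⟨hn.1.1, hn.1.2, hN'pow.trans ?_⟩
    have g1 : (N : ℝ) ≤ (K : ℝ) ^ 3 * sm y (U n) := by exact_mod_cast hn.2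
    have g2 : (K : ℝ) ^ 3 ≤ (N : ℝ) ^ (7 * η) := by
      calc (K : ℝ) ^ 3 ≤ (2 * (N : ℝ) ^ (2 * η)) ^ 3 :=
            pow_le_pow_left₀ (Nat.cast_nonneg _) hK 3
        _ = 8 * ((N : ℝ) ^ (2 * η) * (N : ℝ) ^ (2 * η) * (N : ℝ) ^ (2 * η)) := by ring
        _ = 8 * (N : ℝ) ^ (6 * η) := by rw [hadd, hadd]; congr 2; ring
        _ ≤ (N : ℝ) ^ η * (N : ℝ) ^ (6 * η) := mul_le_mul_of_nonneg_right e4 (by positivity)
        _ = (N : ℝ) ^ (7 * η) := by rw [hadd]; congr 1; ring
    have g3 : (N : ℝ) ≤ (N : ℝ) ^ (7 * η) * sm y (U n) :=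
      g1.trans (mul_le_mul_of_nonneg_right g2 (Nat.cast_nonneg _))
    have g4 : (N : ℝ) ^ (7 * η) * (N : ℝ) ^ (1 - 7 * η) = N := by
      rw [hadd, show 7 * η + (1 - 7 * η) = 1 by ring, Real.rpow_one]
    have g5 : (N : ℝ) ^ (7 * η) * (N : ℝ) ^ (1 - 7 * η) ≤ (N : ℝ) ^ (7 * η) * sm y (U n) := by
      rw [g4]
      exact g3
    exact le_of_mul_le_mul_left g5 (by positivity)
  have hcount := hN₀ N' (hN.trans hNN') y hy hy3 (TTs N N' K y) hS
  refine hcount.trans ?_
  -- compare the exponents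
  have hl2' : Real.log (Real.log N') ≤ (1 + η) * Real.log (Real.log N) := by
    have := Real.log_le_log (by linarith) hlogN'
    rw [Real.log_mul (by linarith) hL0.ne'] at this
    have h9 : Real.log (1 + η) ≤ η := by
      have := Real.log_le_sub_one_of_pos (by linarith : 0 < 1 + η)
      linarith
    have h10 : η ≤ η * Real.log (Real.log N) := by nlinarith
    linarith
  have hl2'' : Real.log (Real.log N) ≤ Real.log (Real.log N') := Real.log_le_log hL0 hlogN'2
  have hl3' : Real.log (Real.log (Real.log N)) ≤ Real.log (Real.log (Real.log N')) :=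
    Real.log_le_log (by linarith) hl2''
  have hEX : (1 - η) * EX N ≤
      Real.log N' * Real.log (Real.log (Real.log N')) / Real.log (Real.log N') := by
    rw [le_div_iff₀ (by linarith)]
    have hE : EX N * Real.log (Real.log N) = Real.log N * Real.log (Real.log (Real.log N)) := by
      unfold EX
      rw [div_mul_cancel₀]
      linarith
    calc (1 - η) * EX N * Real.log (Real.log N')
        ≤ (1 - η) * EX N * ((1 + η) * Real.log (Real.log N)) := by
          apply mul_le_mul_of_nonneg_left hl2'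
          apply mul_nonneg (by linarith) e0
      _ = (1 - η ^ 2) * (EX N * Real.log (Real.log N)) := by ring
      _ ≤ 1 * (EX N * Real.log (Real.log N)) := by
          apply mul_le_mul_of_nonneg_right _ (mul_nonneg e0 (by linarith))
          nlinarith
      _ = Real.log N * Real.log (Real.log (Real.log N)) := by rw [one_mul, hE]
      _ ≤ Real.log N' * Real.log (Real.log (Real.log N')) :=
          mul_le_mul hlogN'2 hl3' (by linarith) (by linarith)
  calc (N' : ℝ) * Real.exp (-((1 - 6 * (4 * η)) * Real.log N' *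
        Real.log (Real.log (Real.log N')) / Real.log (Real.log N')))
      ≤ (N * Real.exp (η * EX N)) * Real.exp (-((1 - 25 * η) * EX N)) := by
        apply mul_le_mul hN'le _ (Real.exp_pos _).le (by positivity)
        apply Real.exp_le_exp.2
        apply neg_le_neg
        have g1 : (1 - 6 * (4 * η)) * ((1 - η) * EX N) ≤ (1 - 6 * (4 * η)) *
            (Real.log N' * Real.log (Real.log (Real.log N')) / Real.log (Real.log N')) :=
          mul_le_mul_of_nonneg_left hEX (by linarith)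
        have g2 : (1 - 25 * η) * EX N ≤ (1 - 6 * (4 * η)) * ((1 - η) * EX N) := by
          have g3 : (1 - 25 * η) ≤ (1 - 6 * (4 * η)) * (1 - η) := by nlinarith
          have := mul_le_mul_of_nonneg_right g3 e0
          linarith
        calc (1 - 25 * η) * EX N ≤ (1 - 6 * (4 * η)) *
            (Real.log N' * Real.log (Real.log (Real.log N')) / Real.log (Real.log N')) :=
              g2.trans g1
          _ = _ := by ring
    _ = N * Real.exp (-((1 - 26 * η) * EX N)) := by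
        rw [mul_assoc, ← Real.exp_add]
        congr 2
        ring

/-- a power saving beats the target -/
lemma pow_small {c : ℝ} (hc : 0 < c) : ∀ᶠ N : ℕ in Filter.atTop,
    (N : ℝ) ^ (1 - c) ≤ N * Real.exp (-(2 * EX N)) := by
  filter_upwards [EX_le (η := c / 2) (by positivity), Filter.eventually_ge_atTop 1] with N h1 hN
  have hN0 : (0 : ℝ) < N := by exact_mod_cast hN
  have h2 : (N : ℝ) ^ (1 - c) = N * Real.exp (-(c * Real.log N)) := by
    rw [Real.rpow_sub hN0, Real.rpow_one, Real.exp_neg, Real.rpow_def_of_pos hN0, mul_comm c]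
    rfl
  rw [h2]
  apply mul_le_mul_of_nonneg_left _ hN0.le
  apply Real.exp_le_exp.2
  linarith

/-- The main theorem. -/
theorem main (ε : ℝ) (hε : 0 < ε) : ∀ᶠ N : ℕ in Filter.atTop,
    (((Finset.Icc 1 N).filter (fun n => φ n = φ (n + 1))).card : ℝ) ≤
      N * Real.exp (-((3 / 2 - ε) * Real.log N * Real.log (Real.log (Real.log N)) /
        Real.log (Real.log N))) := by
  classical
  obtain ⟨η, hηd⟩ : ∃ η, η = min ε 1 / 100 := ⟨_, rfl⟩
  have hη : 0 < η := by
    have : 0 < min ε 1 := lt_min hε one_pos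
    rw [hηd]
    positivity
  have hη1 : η ≤ 1 / 100 := by
    have : min ε 1 ≤ 1 := min_le_right _ _
    rw [hηd]
    linarith
  have hηε : 100 * η ≤ ε := by
    have : min ε 1 ≤ ε := min_le_left _ _
    rw [hηd]
    linarith
  obtain ⟨σ, hσ⟩ : ∃ σ, σ = η ^ 2 / 30000 := ⟨_, rfl⟩
  have hσ0 : 0 < σ := by rw [hσ]; positivity
  have hll : ∀ᶠ N : ℕ in Filter.atTop, 3 ≤ (Real.log N) ^ (1 + η) :=
    ((tendsto_rpow_atTop (by linarith : (0 : ℝ) < 1 + η)).comp tl1).eventually_ge_atTop 3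
  filter_upwards [power_part hη (by linarith) hσ, Pool.Agent.Helper99.CV.main η hη (by linarith),
    con hη hη1, EE_est hη hη1, TT_est hη hη1, tauE hη, RR_est hη hη1, EX_nonneg', hll,
    pow_small (c := σ / 8) (by positivity), pow_small (c := η / 512000) (by positivity),
    pow_small (c := 3 * η) (by positivity), EX_le (η := 1) one_pos, polylog 1 8 hη,
    polylog 0 17 hη, Filter.eventually_ge_atTop 1]
    with N hP hV hC hE hT ht hR hEX hll q1 q2 q3 q4 q5 q6 hN
  have hN1 : (1 : ℝ) ≤ N := by exact_mod_cast hN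
  have hN0 : (0 : ℝ) < N := by linarith
  have hadd : ∀ a b : ℝ, (N : ℝ) ^ a * (N : ℝ) ^ b = (N : ℝ) ^ (a + b) := fun a b =>
    (Real.rpow_add hN0 a b).symm
  have hL0 : 0 ≤ Real.log (N : ℝ) := Real.log_nonneg hN1
  obtain ⟨V, hVc, hVS⟩ := hV
  have hpar := exists_par hη hη1 hN
  set K := ⌈(N : ℝ) ^ (2 * η)⌉₊ with hKd
  set w := ⌊(N : ℝ) ^ η⌋₊ with hwd
  set A0 := ⌊(N : ℝ) ^ (1 / 2 : ℝ)⌋₊ with hA0d
  set Q := ⌈(N : ℝ) ^ (12 * η)⌉₊ with hQd
  set B := ⌊(N : ℝ) ^ (1 / 2 - 10 * η)⌋₊ with hBd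
  have hcon := hC K w A0 Q B hpar
  have hEE := hE K w A0 Q B hpar hcon
  set y := ⌈(Real.log N) ^ (1 + η)⌉₊ with hyd
  have hy1 : (Real.log N) ^ (1 + η) ≤ y := Nat.le_ceil _
  have hy2 : (y : ℝ) ≤ 2 * (Real.log N) ^ (1 + η) := ceil_le_two (by linarith)
  have hy3 : 3 ≤ y := by
    have : (3 : ℝ) ≤ y := hll.trans hy1
    exact_mod_cast this
  have hTT := hT K y hpar.K2 hy3 hy2
  -- the parts
  set S := (Finset.Icc 1 N).filter (fun n => φ n = φ (n + 1)) with hS
  set S1 := S.filter (fun n => ¬ ((N : ℝ) ^ (1 - 2 * η) ≤ (sm y (U n) : ℝ))) with hS1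
  set S2 := S.filter (fun n => ¬ (φ n ∈ V ∧ ∀ p : ℕ, p.Prime → p ∣ n * (n + 1) →
    (p : ℝ) ≤ (N : ℝ) ^ η)) with hS2
  set S3 := S.filter (fun n => ((N : ℝ) ^ (1 - 2 * η) ≤ (sm y (U n) : ℝ)) ∧
    (φ n ∈ V ∧ ∀ p : ℕ, p.Prime → p ∣ n * (n + 1) → (p : ℝ) ≤ (N : ℝ) ^ η)) with hS3
  have hmem : ∀ n ∈ S, 1 ≤ n ∧ n ≤ N ∧ φ n = φ (n + 1) := by
    intro n hn
    rw [hS, Finset.mem_filter, Finset.mem_Icc] at hn
    exact ⟨hn.1.1, hn.1.2, hn.2⟩
  have hc1 : (S1.card : ℝ) ≤ 14 * (N : ℝ) ^ (1 - σ / 8) := by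
    apply hP y hy1
    intro n hn
    rw [hS1, Finset.mem_filter] at hn
    obtain ⟨h1, h2, h3⟩ := hmem n hn.1
    exact ⟨h1, h2, h3, hn.2⟩
  have hc2 : (S2.card : ℝ) ≤ (N : ℝ) ^ (1 - η / 512000) := by
    apply hVS
    intro n hn
    rw [hS2, Finset.mem_filter] at hn
    obtain ⟨h1, h2, h3⟩ := hmem n hn.1
    exact ⟨h1, h2, h3, hn.2⟩
  obtain ⟨t, htd⟩ : ∃ t, t = ⌊Real.exp (η * EX N)⌋₊ := ⟨_, rfl⟩
  have htR : (t : ℝ) ≤ Real.exp (η * EX N) := by
    rw [htd]
    exact Nat.floor_le (Real.exp_pos _).le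
  have hc3 := cover N (N * (1 + Nat.log 2 (N ^ 2))) K y w A0 Q B (N ^ 2) t
    (Real.exp (-((1 / 2 - 30 * η) * EX N))) V S3 hcon.K0 hpar.w2 hcon.A0' hcon.Q0 hcon.B0
    hcon.AK hcon.BK
    (Nat.mul_le_mul_left _ (Nat.add_le_add_left (Nat.log_mono_right hcon.T1) 1)) hcon.T1 hcon.T2
    (fun m h1 h2 => by rw [htd]; exact Nat.le_floor (ht m h1 h2))
    (fun v h1 h2 => hR Q B (B * w) v hcon.Q0 hcon.B0 (Nat.mul_pos hcon.B0 hpar.w2) hcon.BwN
      (by omega) h2 hcon.BQ)
    (fun n hn => by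
      rw [hS3, Finset.mem_filter] at hn
      obtain ⟨h1, h2, h3⟩ := hmem n hn.1
      refine ⟨h1, h2, h3, hn.2.2.1, ?_, ?_⟩
      · intro p hp hpn
        exact Nat.le_floor (hn.2.2.2 p hp hpn)
      · have g1 : (N : ℝ) ≤ K * (sm y (U n) : ℝ) := by
          calc (N : ℝ) = (N : ℝ) ^ (2 * η) * (N : ℝ) ^ (1 - 2 * η) := by
                rw [hadd, show 2 * η + (1 - 2 * η) = 1 by ring, Real.rpow_one]
            _ ≤ K * (sm y (U n) : ℝ) :=
                mul_le_mul hpar.K1 hn.2.1 (by positivity) (Nat.cast_nonneg _)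
        exact_mod_cast g1)
  -- the size of the main part
  have hlogN' : (Nat.log 2 (N * (1 + Nat.log 2 (N ^ 2))) : ℝ) ≤ Real.exp (η * EX N) := by
    refine le_trans ?_ q5
    have g1 : (N * (1 + Nat.log 2 (N ^ 2)) : ℕ) ≤ N ^ 4 := by
      have g2 : Nat.log 2 (N ^ 2) ≤ N ^ 2 := Nat.log_le_self 2 (N ^ 2)
      have g3 : 1 ≤ N ^ 2 := Nat.one_le_pow _ _ hN
      rcases Nat.lt_or_ge 1 N with h | h
      · calc N * (1 + Nat.log 2 (N ^ 2)) ≤ N * (N ^ 2 + N ^ 2) :=
              Nat.mul_le_mul_left _ (by omega)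
          _ = 2 * N ^ 3 := by ring
          _ ≤ N * N ^ 3 := Nat.mul_le_mul_right _ h
          _ = N ^ 4 := by ring
      · have : N = 1 := by omega
        rw [this]
        simp
    have g2 := natlog_le (n := N * (1 + Nat.log 2 (N ^ 2))) (X := (N : ℝ) ^ 4)
      (Nat.mul_pos hN (by omega)) (by exact_mod_cast g1)
    rw [Real.log_pow] at g2
    push_cast at g2 ⊢
    rw [pow_one]
    linarith
  have hS3c : (S3.card : ℝ) ≤ N * Real.exp (-((3 / 2 - 59 * η) * EX N)) + (N : ℝ) ^ (1 - 3 * η) := by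
    refine hc3.trans (add_le_add ?_ ?_)
    · calc (t : ℝ) ^ 2 * Real.exp (-((1 / 2 - 30 * η) * EX N)) *
            ((Nat.log 2 (N * (1 + Nat.log 2 (N ^ 2))) : ℝ) *
              ((TTs N (N * (1 + Nat.log 2 (N ^ 2))) K y).card : ℝ))
          ≤ (Real.exp (η * EX N)) ^ 2 * Real.exp (-((1 / 2 - 30 * η) * EX N)) *
            (Real.exp (η * EX N) * (N * Real.exp (-((1 - 26 * η) * EX N)))) := by
            apply mul_le_mul _ _ (by positivity) (by positivity)
            · apply mul_le_mul_of_nonneg_right _ (Real.exp_pos _).le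
              exact pow_le_pow_left₀ (Nat.cast_nonneg _) htR 2
            · exact mul_le_mul hlogN' hTT (Nat.cast_nonneg _) (Real.exp_pos _).le
        _ = N * Real.exp (-((3 / 2 - 59 * η) * EX N)) := by
            rw [sq]
            have e : ∀ a b c d x : ℝ, a * a * b * (c * (x * d)) = x * (a * a * b * c * d) := by
              intros; ring
            rw [e, ← Real.exp_add, ← Real.exp_add, ← Real.exp_add, ← Real.exp_add]
            congr 2
            ring
    · have hEE0 : 0 ≤ EE Q (B * w) (A0 * (w * K)) (N / A0 + 1) := by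
        unfold EE
        have hD : 1 ≤ B * w := Nat.mul_pos hcon.B0 hpar.w2
        have hlog : 0 ≤ Real.log ((B * w : ℕ) : ℝ) := Real.log_nonneg (by exact_mod_cast hD)
        positivity
      have htN : (t : ℝ) ≤ (N : ℝ) ^ η := by
        refine htR.trans ?_
        rw [Real.rpow_def_of_pos hN0]
        apply Real.exp_le_exp.2
        have := mul_le_mul_of_nonneg_left q4 hη.le
        linarith
      calc (V.card : ℝ) * w * t * EE Q (B * w) (A0 * (w * K)) (N / A0 + 1)
          ≤ ((N : ℝ) ^ η * (N : ℝ) ^ η * (N : ℝ) ^ η) * (N : ℝ) ^ (1 - 6 * η) := by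
            apply mul_le_mul _ hEE hEE0 (by positivity)
            apply mul_le_mul _ htN (Nat.cast_nonneg _) (by positivity)
            exact mul_le_mul hVc hpar.w1 (Nat.cast_nonneg _) (by positivity)
        _ = (N : ℝ) ^ (1 - 3 * η) := by
            rw [hadd, hadd, hadd]; congr 1; ring
  -- all together
  have hcover : S ⊆ S1 ∪ (S2 ∪ S3) := by
    intro n hn
    by_cases h1 : (N : ℝ) ^ (1 - 2 * η) ≤ (sm y (U n) : ℝ)
    · by_cases h2 : (φ n ∈ V ∧ ∀ p : ℕ, p.Prime → p ∣ n * (n + 1) → (p : ℝ) ≤ (N : ℝ) ^ η)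
      · exact Finset.mem_union_right _ (Finset.mem_union_right _ (Finset.mem_filter.2 ⟨hn, h1, h2⟩))
      · exact Finset.mem_union_right _ (Finset.mem_union_left _ (Finset.mem_filter.2 ⟨hn, h2⟩))
    · exact Finset.mem_union_left _ (Finset.mem_filter.2 ⟨hn, h1⟩)
  have hcard : (S.card : ℝ) ≤ S1.card + (S2.card + S3.card) := by
    have h1 := Finset.card_le_card hcover
    have h2 := Finset.card_union_le S1 (S2 ∪ S3)
    have h3 := Finset.card_union_le S2 S3
    have h4 : S.card ≤ S1.card + (S2.card + S3.card) := by omega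
    exact_mod_cast h4
  set G := (N : ℝ) * Real.exp (-((3 / 2 - 59 * η) * EX N)) with hG
  have hG2 : (N : ℝ) * Real.exp (-(2 * EX N)) ≤ G := by
    rw [hG]
    apply mul_le_mul_of_nonneg_left _ hN0.le
    apply Real.exp_le_exp.2
    apply neg_le_neg
    apply mul_le_mul_of_nonneg_right _ hEX
    linarith
  have hG0 : 0 ≤ G := by positivity
  have htot : (S.card : ℝ) ≤ 17 * G := by linarith
  refine htot.trans ?_
  calc 17 * G ≤ Real.exp (η * EX N) * G := by
        apply mul_le_mul_of_nonneg_right _ hG0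
        simpa using q6
    _ = N * Real.exp (-((3 / 2 - 60 * η) * EX N)) := by
        rw [hG]
        have e : ∀ a b x : ℝ, a * (x * b) = x * (a * b) := by intros; ring
        rw [e, ← Real.exp_add]
        congr 2
        ring
    _ ≤ N * Real.exp (-((3 / 2 - ε) * EX N)) := by
        apply mul_le_mul_of_nonneg_left _ hN0.le
        apply Real.exp_le_exp.2
        apply neg_le_neg
        apply mul_le_mul_of_nonneg_right _ hEX
        linarith
    _ = _ := by
        unfold EX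
        congr 3
        ring

end Pool.Agent.Helper69.LT
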