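import Pool.Agent.Helper69.LT.Cover
import Pool.Agent.Helper69.LT.Est

set_option autoImplicit false

/-!
# LT-11: the parameters
-/

open Finset
open scoped Nat

namespace Pool.Agent.Helper69.LT

open Pool.Agent.TN

lemma half_le_floor {x : ℝ} (hx : 1 ≤ x) : x / 2 ≤ (⌊x⌋₊ : ℝ) := by
  have h1 := Nat.lt_floor_add_one x
  have h2 : 1 ≤ ⌊x⌋₊ := (Nat.one_le_floor_iff x).2 hx
  have h3 : (1 : ℝ) ≤ ⌊x⌋₊ := by exact_mod_cast h2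
  linarith

lemma ceil_le_two {x : ℝ} (hx : 1 ≤ x) : (⌈x⌉₊ : ℝ) ≤ 2 * x := by
  have h1 := Nat.ceil_lt_add_one (by linarith : 0 ≤ x)
  linarith

/-- the parameters as functions of `N` and `η` -/
structure Par (N : ℕ) (η : ℝ) (K w A0 Q B : ℕ) : Prop where
  K1 : (N : ℝ) ^ (2 * η) ≤ K
  K2 : (K : ℝ) ≤ 2 * (N : ℝ) ^ (2 * η)
  w1 : (w : ℝ) ≤ (N : ℝ) ^ η
  w2 : 1 ≤ w
  A1 : (N : ℝ) ^ (1 / 2 : ℝ) / 2 ≤ A0
  A2 : (A0 : ℝ) ≤ (N : ℝ) ^ (1 / 2 : ℝ)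
  Q1 : (N : ℝ) ^ (12 * η) ≤ Q
  Q2 : (Q : ℝ) ≤ 2 * (N : ℝ) ^ (12 * η)
  B1 : (N : ℝ) ^ (1 / 2 - 10 * η) / 2 ≤ B
  B2 : (B : ℝ) ≤ (N : ℝ) ^ (1 / 2 - 10 * η)

lemma exists_par {N : ℕ} {η : ℝ} (hη : 0 < η) (hη1 : η ≤ 1 / 100) (hN : 1 ≤ N) :
    Par N η ⌈(N : ℝ) ^ (2 * η)⌉₊ ⌊(N : ℝ) ^ η⌋₊ ⌊(N : ℝ) ^ (1 / 2 : ℝ)⌋₊ ⌈(N : ℝ) ^ (12 * η)⌉₊
      ⌊(N : ℝ) ^ (1 / 2 - 10 * η)⌋₊ := by
  have hN1 : (1 : ℝ) ≤ N := by exact_mod_cast hN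
  have p1 : 1 ≤ (N : ℝ) ^ (2 * η) := Real.one_le_rpow hN1 (by linarith)
  have p2 : 1 ≤ (N : ℝ) ^ η := Real.one_le_rpow hN1 hη.le
  have p3 : 1 ≤ (N : ℝ) ^ (1 / 2 : ℝ) := Real.one_le_rpow hN1 (by norm_num)
  have p4 : 1 ≤ (N : ℝ) ^ (12 * η) := Real.one_le_rpow hN1 (by linarith)
  have p5 : 1 ≤ (N : ℝ) ^ (1 / 2 - 10 * η) := Real.one_le_rpow hN1 (by linarith)
  exact ⟨Nat.le_ceil _, ceil_le_two p1, Nat.floor_le (by linarith),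
    (Nat.one_le_floor_iff _).2 p2, half_le_floor p3, Nat.floor_le (by linarith),
    Nat.le_ceil _, ceil_le_two p4, half_le_floor p5, Nat.floor_le (by linarith)⟩

/-- the consequences used in the cover -/
structure Con (N : ℕ) (η : ℝ) (K w A0 Q B : ℕ) : Prop where
  K0 : 1 ≤ K
  A0' : 2 ≤ A0
  Q0 : 1 ≤ Q
  B0 : 1 ≤ B
  AK : A0 * K ≤ N
  BK : B * K ≤ N
  BwN : B * w ≤ N
  u1 : ((A0 * (w * K) : ℕ) : ℝ) ≤ 2 * (N : ℝ) ^ (1 / 2 + 3 * η)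
  u2 : ((N / A0 + 1 : ℕ) : ℝ) ≤ 3 * (N : ℝ) ^ (1 / 2 : ℝ)
  T1 : A0 * (w * K) * (N / A0 + 1) ≤ N ^ 2
  T2 : B * w ≤ N ^ 2
  D : ((B * w : ℕ) : ℝ) ≤ (N : ℝ) ^ (1 / 2 - 9 * η)
  BQ : (N : ℝ) ^ (1 / 2 - 22 * η) / 4 ≤ (B : ℝ) / Q

lemma con {η : ℝ} (hη : 0 < η) (hη1 : η ≤ 1 / 100) : ∀ᶠ N : ℕ in Filter.atTop,
    ∀ K w A0 Q B : ℕ, Par N η K w A0 Q B → Con N η K w A0 Q B := by
  have hc : ∀ᶠ N : ℕ in Filter.atTop, 16 ≤ (N : ℝ) ^ (1 / 4 : ℝ) :=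
    ((tendsto_rpow_atTop (by norm_num : (0 : ℝ) < 1 / 4)).comp
      tendsto_natCast_atTop_atTop).eventually_ge_atTop 16
  filter_upwards [hc, Filter.eventually_ge_atTop 1] with N hc hN K w A0 Q B hp
  have hN1 : (1 : ℝ) ≤ N := by exact_mod_cast hN
  have hN0 : (0 : ℝ) < N := by linarith
  have hexp : ∀ a b : ℝ, a ≤ b → (N : ℝ) ^ a ≤ (N : ℝ) ^ b := fun a b h =>
    Real.rpow_le_rpow_of_exponent_le hN1 h
  have hone : ∀ a : ℝ, 0 ≤ a → 1 ≤ (N : ℝ) ^ a := fun a h => Real.one_le_rpow hN1 h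
  have hadd : ∀ a b : ℝ, (N : ℝ) ^ a * (N : ℝ) ^ b = (N : ℝ) ^ (a + b) := fun a b =>
    (Real.rpow_add hN0 a b).symm
  have hK1 : (1 : ℝ) ≤ K := (hone _ (by linarith)).trans hp.K1
  have hK0 : 1 ≤ K := by exact_mod_cast hK1
  have hQ1 : (1 : ℝ) ≤ Q := (hone _ (by linarith)).trans hp.Q1
  have hQ0 : 1 ≤ Q := by exact_mod_cast hQ1
  have h14 : (16 : ℝ) ≤ (N : ℝ) ^ (1 / 2 : ℝ) := hc.trans (hexp _ _ (by norm_num))
  have hA2 : (2 : ℝ) ≤ A0 := by have := hp.A1; linarith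
  have hA0 : 2 ≤ A0 := by exact_mod_cast hA2
  have h15 : (16 : ℝ) ≤ (N : ℝ) ^ (1 / 2 - 10 * η) := hc.trans (hexp _ _ (by linarith))
  have hB1 : (1 : ℝ) ≤ B := by have := hp.B1; linarith
  have hB0 : 1 ≤ B := by exact_mod_cast hB1
  have hw1 : (1 : ℝ) ≤ w := by exact_mod_cast hp.w2
  have hw0 := hp.w1
  have hAK : (A0 : ℝ) * K ≤ N := by
    calc (A0 : ℝ) * K ≤ (N : ℝ) ^ (1 / 2 : ℝ) * (2 * (N : ℝ) ^ (2 * η)) :=
          mul_le_mul hp.A2 hp.K2 (by linarith) (by positivity)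
      _ = 2 * (N : ℝ) ^ (1 / 2 + 2 * η) := by rw [← hadd]; ring
      _ ≤ (N : ℝ) ^ (1 / 4 : ℝ) * (N : ℝ) ^ (3 / 4 : ℝ) := by
          apply mul_le_mul (by linarith) (hexp _ _ (by linarith)) (by positivity) (by positivity)
      _ = N := by rw [hadd]; norm_num
  have hBA : (B : ℝ) ≤ (N : ℝ) ^ (1 / 2 : ℝ) := hp.B2.trans (hexp _ _ (by linarith))
  have hBK : (B : ℝ) * K ≤ N := by
    calc (B : ℝ) * K ≤ (N : ℝ) ^ (1 / 2 : ℝ) * (2 * (N : ℝ) ^ (2 * η)) :=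
          mul_le_mul hBA hp.K2 (by linarith) (by positivity)
      _ = 2 * (N : ℝ) ^ (1 / 2 + 2 * η) := by rw [← hadd]; ring
      _ ≤ (N : ℝ) ^ (1 / 4 : ℝ) * (N : ℝ) ^ (3 / 4 : ℝ) := by
          apply mul_le_mul (by linarith) (hexp _ _ (by linarith)) (by positivity) (by positivity)
      _ = N := by rw [hadd]; norm_num
  have hD : (B : ℝ) * w ≤ (N : ℝ) ^ (1 / 2 - 9 * η) := by
    calc (B : ℝ) * w ≤ (N : ℝ) ^ (1 / 2 - 10 * η) * (N : ℝ) ^ η :=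
          mul_le_mul hp.B2 hp.w1 (by linarith) (by positivity)
      _ = (N : ℝ) ^ (1 / 2 - 9 * η) := by rw [hadd]; congr 1; ring
  have hDN : (B : ℝ) * w ≤ N := by
    refine hD.trans ?_
    calc (N : ℝ) ^ (1 / 2 - 9 * η) ≤ (N : ℝ) ^ (1 : ℝ) := hexp _ _ (by linarith)
      _ = N := Real.rpow_one _
  have hu1 : (A0 : ℝ) * (w * K) ≤ 2 * (N : ℝ) ^ (1 / 2 + 3 * η) := by
    calc (A0 : ℝ) * (w * K) ≤ (N : ℝ) ^ (1 / 2 : ℝ) * ((N : ℝ) ^ η * (2 * (N : ℝ) ^ (2 * η))) := by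
          apply mul_le_mul hp.A2 _ (by positivity) (by positivity)
          exact mul_le_mul hp.w1 hp.K2 (by linarith) (by positivity)
      _ = 2 * ((N : ℝ) ^ (1 / 2 : ℝ) * (N : ℝ) ^ η * (N : ℝ) ^ (2 * η)) := by ring
      _ = 2 * (N : ℝ) ^ (1 / 2 + 3 * η) := by
          rw [hadd, hadd]; congr 2; ring
  have hsq : (N : ℝ) ^ (1 / 2 : ℝ) * (N : ℝ) ^ (1 / 2 : ℝ) = N := by rw [hadd]; norm_num
  have hu2 : ((N / A0 + 1 : ℕ) : ℝ) ≤ 3 * (N : ℝ) ^ (1 / 2 : ℝ) := by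
    have g1 : ((N / A0 : ℕ) : ℝ) ≤ (N : ℝ) / A0 := Nat.cast_div_le
    have g2 : (N : ℝ) / A0 ≤ 2 * (N : ℝ) ^ (1 / 2 : ℝ) := by
      rw [div_le_iff₀ (by linarith)]
      have := hp.A1
      have h16 : (0 : ℝ) ≤ (N : ℝ) ^ (1 / 2 : ℝ) := by positivity
      nlinarith
    push_cast
    linarith
  have hT : (A0 : ℝ) * (w * K) * ((N / A0 + 1 : ℕ) : ℝ) ≤ (N : ℝ) ^ 2 := by
    calc (A0 : ℝ) * (w * K) * ((N / A0 + 1 : ℕ) : ℝ)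
        ≤ (2 * (N : ℝ) ^ (1 / 2 + 3 * η)) * (3 * (N : ℝ) ^ (1 / 2 : ℝ)) :=
          mul_le_mul hu1 hu2 (Nat.cast_nonneg _) (by positivity)
      _ = 6 * (N : ℝ) ^ (1 + 3 * η) := by
          have e : (N : ℝ) ^ (1 + 3 * η) = (N : ℝ) ^ (1 / 2 + 3 * η) * (N : ℝ) ^ (1 / 2 : ℝ) := by
            rw [hadd]; congr 1; ring
          rw [e]
          ring
      _ ≤ (N : ℝ) ^ (1 / 4 : ℝ) * (N : ℝ) ^ (7 / 4 : ℝ) := by
          apply mul_le_mul (by linarith) (hexp _ _ (by linarith)) (by positivity) (by positivity)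
      _ = (N : ℝ) ^ (2 : ℝ) := by rw [hadd]; norm_num
      _ = (N : ℝ) ^ 2 := by exact_mod_cast Real.rpow_natCast (N : ℝ) 2
  refine ⟨hK0, hA0, hQ0, hB0, by exact_mod_cast hAK, by exact_mod_cast hBK, by exact_mod_cast hDN,
    ?_, hu2, ?_, ?_, ?_, ?_⟩
  · push_cast
    exact hu1
  · exact_mod_cast hT
  · have g1 : B * w ≤ N := by exact_mod_cast hDN
    refine g1.trans ?_
    nlinarith
  · push_cast
    exact hD
  · rw [le_div_iff₀ (by linarith)]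
    calc (N : ℝ) ^ (1 / 2 - 22 * η) / 4 * Q ≤ (N : ℝ) ^ (1 / 2 - 22 * η) / 4 *
          (2 * (N : ℝ) ^ (12 * η)) := mul_le_mul_of_nonneg_left hp.Q2 (by positivity)
      _ = ((N : ℝ) ^ (1 / 2 - 22 * η) * (N : ℝ) ^ (12 * η)) / 2 := by ring
      _ = (N : ℝ) ^ (1 / 2 - 10 * η) / 2 := by rw [hadd]; congr 2; ring
      _ ≤ B := hp.B1

/-- the large conductors -/
lemma EE_est {η : ℝ} (hη : 0 < η) (hη1 : η ≤ 1 / 100) : ∀ᶠ N : ℕ in Filter.atTop,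
    ∀ K w A0 Q B : ℕ, Par N η K w A0 Q B → Con N η K w A0 Q B →
      EE Q (B * w) (A0 * (w * K)) (N / A0 + 1) ≤ (N : ℝ) ^ (1 - 6 * η) := by
  filter_upwards [polylog 3 (135 * 8) (η := 1) one_pos, EX_le hη, Filter.eventually_ge_atTop 1]
    with N h1 h2 hN K w A0 Q B hp hc
  have hN1 : (1 : ℝ) ≤ N := by exact_mod_cast hN
  have hN0 : (0 : ℝ) < N := by linarith
  have hexp : ∀ a b : ℝ, a ≤ b → (N : ℝ) ^ a ≤ (N : ℝ) ^ b := fun a b h =>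
    Real.rpow_le_rpow_of_exponent_le hN1 h
  have hadd : ∀ a b : ℝ, (N : ℝ) ^ a * (N : ℝ) ^ b = (N : ℝ) ^ (a + b) := fun a b =>
    (Real.rpow_add hN0 a b).symm
  have hL0 : 0 ≤ Real.log (N : ℝ) := Real.log_nonneg hN1
  have hD1 : 1 ≤ B * w := Nat.mul_pos hc.B0 hp.w2
  have hDR : ((B * w : ℕ) : ℝ) ≤ N := by exact_mod_cast hc.BwN
  have hD0 : (1 : ℝ) ≤ ((B * w : ℕ) : ℝ) := by exact_mod_cast hD1
  have g1 : (Nat.log 2 (B * w) : ℝ) ≤ 2 * Real.log N := natlog_le hD1 hDR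
  have g2 : Real.log ((B * w : ℕ) : ℝ) ≤ Real.log N := Real.log_le_log (by linarith) hDR
  have g20 : 0 ≤ Real.log ((B * w : ℕ) : ℝ) := Real.log_nonneg hD0
  have hu1 := hc.u1
  have hu2 := hc.u2
  have hQ := hp.Q1
  have hQ0 : (0 : ℝ) < Q := by exact_mod_cast hc.Q0
  have hu10 : (0 : ℝ) ≤ ((A0 * (w * K) : ℕ) : ℝ) := Nat.cast_nonneg _
  have hu20 : (0 : ℝ) ≤ ((N / A0 + 1 : ℕ) : ℝ) := Nat.cast_nonneg _
  have g3 : (((A0 * (w * K) : ℕ) : ℝ) + ((N / A0 + 1 : ℕ) : ℝ)) / Q + 4 * ((B * w : ℕ) : ℝ) ≤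
      9 * (N : ℝ) ^ (1 / 2 - 9 * η) := by
    have e1 : ((A0 * (w * K) : ℕ) : ℝ) + ((N / A0 + 1 : ℕ) : ℝ) ≤
        5 * (N : ℝ) ^ (1 / 2 + 3 * η) := by
      have := hexp (1 / 2) (1 / 2 + 3 * η) (by linarith)
      linarith
    have e2 : (((A0 * (w * K) : ℕ) : ℝ) + ((N / A0 + 1 : ℕ) : ℝ)) / Q ≤
        5 * (N : ℝ) ^ (1 / 2 - 9 * η) := by
      rw [div_le_iff₀ hQ0]
      calc ((A0 * (w * K) : ℕ) : ℝ) + ((N / A0 + 1 : ℕ) : ℝ)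
          ≤ 5 * (N : ℝ) ^ (1 / 2 + 3 * η) := e1
        _ = 5 * (N : ℝ) ^ (1 / 2 - 9 * η) * (N : ℝ) ^ (12 * η) := by
            rw [mul_assoc, hadd]; congr 2; ring
        _ ≤ 5 * (N : ℝ) ^ (1 / 2 - 9 * η) * Q :=
            mul_le_mul_of_nonneg_left hQ (by positivity)
    have := hc.D
    linarith
  have g4 : Real.sqrt (((A0 * (w * K) : ℕ) : ℝ) * ((N / A0 + 1 : ℕ) : ℝ)) ≤
      3 * (N : ℝ) ^ (1 / 2 + 2 * η) := by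
    rw [Real.sqrt_le_left (by positivity)]
    calc ((A0 * (w * K) : ℕ) : ℝ) * ((N / A0 + 1 : ℕ) : ℝ)
        ≤ (2 * (N : ℝ) ^ (1 / 2 + 3 * η)) * (3 * (N : ℝ) ^ (1 / 2 : ℝ)) :=
          mul_le_mul hu1 hu2 hu20 (by positivity)
      _ = 6 * (N : ℝ) ^ (1 + 3 * η) := by
          have e : (N : ℝ) ^ (1 + 3 * η) = (N : ℝ) ^ (1 / 2 + 3 * η) * (N : ℝ) ^ (1 / 2 : ℝ) := by
            rw [hadd]; congr 1; ring
          rw [e]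
          ring
      _ ≤ 9 * (N : ℝ) ^ (1 + 4 * η) := by
          have := hexp (1 + 3 * η) (1 + 4 * η) (by linarith)
          have h0 : 0 ≤ (N : ℝ) ^ (1 + 4 * η) := by positivity
          linarith
      _ = (3 * (N : ℝ) ^ (1 / 2 + 2 * η)) ^ 2 := by
          rw [show (1 : ℝ) + 4 * η = (1 / 2 + 2 * η) + (1 / 2 + 2 * η) by ring, ← hadd]
          ring
  unfold EE
  have g5 : ((1 : ℝ) + Nat.log 2 (B * w)) * (1 + Real.log ((B * w : ℕ) : ℝ)) ≤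
      (2 * (1 + Real.log N)) * (1 + Real.log N) := by
    apply mul_le_mul (by linarith) (by linarith) (by linarith) (by linarith)
  have g6 : ((Nat.log 2 (B * w) : ℝ) + 1) ≤ 2 * (1 + Real.log N) := by linarith
  have g7 : (5 * (((((A0 * (w * K) : ℕ) : ℝ) + ((N / A0 + 1 : ℕ) : ℝ)) / Q +
      4 * ((B * w : ℕ) : ℝ))) *
      Real.sqrt (((A0 * (w * K) : ℕ) : ℝ) * ((N / A0 + 1 : ℕ) : ℝ))) ≤
      (5 * (9 * (N : ℝ) ^ (1 / 2 - 9 * η)) * (3 * (N : ℝ) ^ (1 / 2 + 2 * η))) := by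
    apply mul_le_mul _ g4 (Real.sqrt_nonneg _) (by positivity)
    linarith
  have g8 : 0 ≤ ((1 : ℝ) + Nat.log 2 (B * w)) := by positivity
  calc _ ≤ ((2 * (1 + Real.log N)) * (1 + Real.log N)) * ((2 * (1 + Real.log N)) *
        (5 * (9 * (N : ℝ) ^ (1 / 2 - 9 * η)) * (3 * (N : ℝ) ^ (1 / 2 + 2 * η)))) := by
        apply mul_le_mul g5 _ (by positivity) (by positivity)
        exact mul_le_mul g6 g7 (by positivity) (by positivity)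
    _ = 540 * (1 + Real.log N) ^ 3 * ((N : ℝ) ^ (1 / 2 - 9 * η) * (N : ℝ) ^ (1 / 2 + 2 * η)) := by
        ring
    _ = 540 * (1 + Real.log N) ^ 3 * (N : ℝ) ^ (1 - 7 * η) := by
        rw [hadd]; congr 2; ring
    _ ≤ Real.exp (η * Real.log N) * (N : ℝ) ^ (1 - 7 * η) := by
        apply mul_le_mul_of_nonneg_right _ (by positivity)
        have e3 : Real.exp (1 * EX N) ≤ Real.exp (η * Real.log N) :=
          Real.exp_le_exp.2 (by linarith)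
        have e4 : 0 ≤ (1 + Real.log (N : ℝ)) ^ 3 := by positivity
        linarith
    _ = (N : ℝ) ^ (1 - 6 * η) := by
        have e5 : Real.exp (η * Real.log N) = (N : ℝ) ^ η := by
          rw [Real.rpow_def_of_pos hN0, mul_comm]
        rw [e5, hadd]
        congr 1
        ring

end Pool.Agent.Helper69.LT
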