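import Pool.Agent.Helper69.LT.Count

set_option autoImplicit false

/-!
# LT-4: the small conductors
-/

open Finset
open scoped Nat

namespace Pool.Agent.Helper69.LT

/-- the moduli -/
def BB (B D v : ℕ) : Finset ℕ := (Icc 1 D).filter (fun b => B ≤ b ∧ φ b ∣ v)

/-- the cofactors -/
def CCC (Q B D v : ℕ) : Finset ℕ := (Icc 1 D).filter (fun c => B ≤ c * Q ∧ φ c ∣ v)

/-- the sum over the cofactors -/
noncomputable def RR (Q B D v : ℕ) : ℝ := ∑ c ∈ CCC Q B D v, 1 / (φ c : ℝ)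

lemma RR_nonneg (Q B D v : ℕ) : 0 ≤ RR Q B D v := Finset.sum_nonneg fun _ _ => by positivity

lemma SP_le (Q b k : ℕ) : SP Q b k ≤ b.divisors.card *
    ∑ r ∈ (k + 1).divisors.filter (fun r => r ≤ Q ∧ r ∣ b), φ r := by
  unfold SP
  have h1 : ∀ f ∈ b.divisors.filter (fun f => f ≤ Q),
      ∑ r ∈ f.divisors.filter (fun r => r ∣ k + 1), φ r ≤
      ∑ r ∈ (k + 1).divisors.filter (fun r => r ≤ Q ∧ r ∣ b), φ r := by
    intro f hf
    rw [Finset.mem_filter] at hf
    apply Finset.sum_le_sum_of_subset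
    intro r hr
    rw [Finset.mem_filter] at hr ⊢
    have h2 := Nat.dvd_of_mem_divisors hr.1
    have h3 := Nat.dvd_of_mem_divisors hf.1
    have h4 : 0 < f := Nat.pos_of_mem_divisors hf.1
    exact ⟨Nat.mem_divisors.2 ⟨hr.2, by omega⟩, (Nat.le_of_dvd h4 h2).trans hf.2, h2.trans h3⟩
  calc _ ≤ ∑ f ∈ b.divisors.filter (fun f => f ≤ Q),
        ∑ r ∈ (k + 1).divisors.filter (fun r => r ≤ Q ∧ r ∣ b), φ r := Finset.sum_le_sum h1
    _ = (b.divisors.filter (fun f => f ≤ Q)).card *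
        ∑ r ∈ (k + 1).divisors.filter (fun r => r ≤ Q ∧ r ∣ b), φ r := by
        rw [Finset.sum_const, smul_eq_mul]
    _ ≤ _ := Nat.mul_le_mul_right _ (Finset.card_filter_le _ _)

theorem small (Q B D v k t : ℕ) (ht1 : ∀ b ∈ Icc 1 D, b.divisors.card ≤ t)
    (ht2 : (k + 1).divisors.card ≤ t) :
    ∑ b ∈ BB B D v, (SP Q b k : ℝ) / φ b ≤ (t : ℝ) ^ 2 * RR Q B D v := by
  classical
  have h1 : ∀ b ∈ BB B D v, (SP Q b k : ℝ) / φ b ≤
      t * ∑ r ∈ (k + 1).divisors.filter (fun r => r ≤ Q), if r ∣ b then (φ r : ℝ) / φ b else 0 := by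
    intro b hb
    unfold BB at hb
    rw [Finset.mem_filter, Finset.mem_Icc] at hb
    have hφ : (0 : ℝ) < φ b := by exact_mod_cast Nat.totient_pos.2 (by omega : 0 < b)
    have h2 : (SP Q b k : ℝ) ≤ t *
        ∑ r ∈ (k + 1).divisors.filter (fun r => r ≤ Q ∧ r ∣ b), (φ r : ℝ) := by
      have h3 := SP_le Q b k
      have h4 := Nat.mul_le_mul_right (∑ r ∈ (k + 1).divisors.filter (fun r => r ≤ Q ∧ r ∣ b), φ r)
        (ht1 b (Finset.mem_Icc.2 hb.1))
      exact_mod_cast h3.trans h4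
    rw [div_le_iff₀ hφ]
    refine h2.trans (le_of_eq ?_)
    rw [mul_assoc, Finset.sum_mul]
    congr 1
    rw [← Finset.sum_filter_add_sum_filter_not ((k + 1).divisors.filter (fun r => r ≤ Q))
      (fun r => r ∣ b)]
    have h5 : ∑ r ∈ ((k + 1).divisors.filter (fun r => r ≤ Q)).filter (fun r => ¬ r ∣ b),
        (if r ∣ b then (φ r : ℝ) / φ b else 0) * φ b = 0 := by
      apply Finset.sum_eq_zero
      intro r hr
      rw [if_neg (Finset.mem_filter.1 hr).2, zero_mul]
    rw [h5, add_zero, Finset.filter_filter]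
    refine Finset.sum_congr rfl fun r hr => ?_
    rw [if_pos (Finset.mem_filter.1 hr).2.2, div_mul_cancel₀ _ hφ.ne']
  refine (Finset.sum_le_sum h1).trans ?_
  rw [← Finset.mul_sum, Finset.sum_comm, sq, mul_assoc]
  apply mul_le_mul_of_nonneg_left _ (Nat.cast_nonneg _)
  have h6 : ∀ r ∈ (k + 1).divisors.filter (fun r => r ≤ Q),
      ∑ b ∈ BB B D v, (if r ∣ b then (φ r : ℝ) / φ b else 0) ≤ RR Q B D v := by
    intro r hr
    rw [Finset.mem_filter] at hr
    have hr0 : 0 < r := Nat.pos_of_mem_divisors hr.1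
    rw [← Finset.sum_filter]
    unfold RR
    have h7 : ∀ b ∈ (BB B D v).filter (fun b => r ∣ b), (φ r : ℝ) / φ b ≤ 1 / (φ (b / r) : ℝ) := by
      intro b hb
      unfold BB at hb
      rw [Finset.mem_filter, Finset.mem_filter, Finset.mem_Icc] at hb
      obtain ⟨⟨⟨hb1, hb2⟩, hb3, hb4⟩, hrb⟩ := hb
      have hbr : r * (b / r) = b := Nat.mul_div_cancel' hrb
      have hc0 : 0 < b / r := Nat.div_pos (Nat.le_of_dvd (by omega) hrb) hr0
      have h8 := Nat.totient_super_multiplicative r (b / r)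
      rw [hbr] at h8
      have h9 : ((φ r : ℝ) * φ (b / r)) ≤ φ b := by exact_mod_cast h8
      have h10 : (0 : ℝ) < φ b := by exact_mod_cast Nat.totient_pos.2 (by omega : 0 < b)
      have h11 : (0 : ℝ) < φ (b / r) := by exact_mod_cast Nat.totient_pos.2 hc0
      rw [div_le_div_iff₀ h10 h11, one_mul]
      exact h9
    refine (Finset.sum_le_sum h7).trans ?_
    have hinj : Set.InjOn (fun b => b / r) ((BB B D v).filter (fun b => r ∣ b)) := by
      intro b hb b' hb' h
      have h1 := (Finset.mem_filter.1 (Finset.mem_coe.1 hb)).2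
      have h2 := (Finset.mem_filter.1 (Finset.mem_coe.1 hb')).2
      have h3 : b / r = b' / r := h
      rw [← Nat.mul_div_cancel' h1, ← Nat.mul_div_cancel' h2, h3]
    rw [← Finset.sum_image (f := fun c => 1 / (φ c : ℝ)) hinj]
    apply Finset.sum_le_sum_of_subset_of_nonneg
    · intro c hc
      rw [Finset.mem_image] at hc
      obtain ⟨b, hb, rfl⟩ := hc
      unfold BB at hb
      rw [Finset.mem_filter, Finset.mem_filter, Finset.mem_Icc] at hb
      obtain ⟨⟨⟨hb1, hb2⟩, hb3, hb4⟩, hrb⟩ := hb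
      have hbr : b / r * r = b := Nat.div_mul_cancel hrb
      have hc0 : 0 < b / r := Nat.div_pos (Nat.le_of_dvd (by omega) hrb) hr0
      unfold CCC
      rw [Finset.mem_filter, Finset.mem_Icc]
      refine ⟨⟨hc0, (Nat.div_le_self _ _).trans hb2⟩, ?_, ?_⟩
      · calc B ≤ b := hb3
          _ = b / r * r := hbr.symm
          _ ≤ b / r * Q := Nat.mul_le_mul_left _ hr.2
      · exact (Nat.totient_dvd_of_dvd (Nat.div_dvd_of_dvd hrb)).trans hb4
    · intro c _ _
      positivity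
  refine (Finset.sum_le_sum h6).trans ?_
  rw [Finset.sum_const, nsmul_eq_mul]
  apply mul_le_mul_of_nonneg_right _ (RR_nonneg _ _ _ _)
  exact_mod_cast (Finset.card_filter_le _ _).trans ht2

end Pool.Agent.Helper69.LT
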